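import Pool.Agent.Q279.MC.J.Bas79

/-!
# Project MC, job BQ: binary quadratic forms
-/

set_option autoImplicit false

namespace Pool.Agent.Q279.MC.JBQ

open Finset NumberField
open Pool.Agent.Q35.MM Pool.Agent.Q279.MC.Bas79

theorem S1_map {K E : Type} [Field K] [Field E] [NumberField K] [NumberField E] [Algebra K E]
    {B : ℕ} {x : K} (hx : x ∈ S1 K B) : algebraMap K E x ∈ S1 E B := by
  refine ⟨hx.1.map (algebraMap K E).toIntAlgHom, fun φ => ?_⟩
  exact hx.2 (φ.comp (algebraMap K E))

/-- a common denominator -/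
theorem exists_denom {E : Type} [Field E] [NumberField E] (c : E) :
    ∃ D : ℤ, D ≠ 0 ∧ IsIntegral ℤ ((D : E) * c) := by
  have h : IsAlgebraic ℤ c :=
    (IsFractionRing.isAlgebraic_iff ℤ ℚ E).2 (Algebra.IsAlgebraic.isAlgebraic c)
  obtain ⟨D, hD, hi⟩ := h.exists_integral_multiple
  refine ⟨D, hD, ?_⟩
  rwa [zsmul_eq_mul] at hi

theorem int_S1 {E : Type} [Field E] [NumberField E] (D : ℤ) : (D : E) ∈ S1 E D.natAbs := by
  refine ⟨(isIntegral_intCast D), fun φ => ?_⟩
  rw [map_intCast, Complex.norm_intCast, Nat.cast_natAbs, Int.cast_abs]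

/-- the number field with a square root -/
theorem exists_field (K : Type) [Field K] [NumberField K] (b : K) :
    ∃ (E : Type) (_ : Field E) (_ : NumberField E) (_ : Algebra K E) (c : E),
      c ^ 2 = algebraMap K E b := by
  set f : Polynomial K := Polynomial.X ^ 2 - Polynomial.C b with hf
  have hE : NumberField f.SplittingField := NumberField.of_module_finite K _
  have hdeg : (f.map (algebraMap K f.SplittingField)).degree ≠ 0 := by
    rw [Polynomial.degree_map, hf, Polynomial.degree_X_pow_sub_C (by norm_num)]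
    norm_num
  obtain ⟨c, hc⟩ := (Polynomial.SplittingField.splits f).exists_eval_eq_zero hdeg
  refine ⟨f.SplittingField, inferInstance, hE, inferInstance, c, ?_⟩
  rw [Polynomial.eval_map] at hc
  have e : Polynomial.eval₂ (algebraMap K f.SplittingField) c f =
      c ^ 2 - algebraMap K f.SplittingField b := by
    simp only [hf, Polynomial.eval₂_sub, Polynomial.eval₂_pow, Polynomial.eval₂_X,
      Polynomial.eval₂_C]
  rw [e] at hc
  exact sub_eq_zero.1 hc

theorem main : S_DV → S_BQ := by
  intro hDV K _ _ a b ha hb δ hδ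
  classical
  obtain ⟨E, _, _, _, c, hc⟩ := exists_field K (-(b / a))
  have hinj : Function.Injective (algebraMap K E) := (algebraMap K E).injective
  have hc0 : c ≠ 0 := by
    rintro rfl
    rw [zero_pow two_ne_zero] at hc
    have h1 : -(b / a) = 0 := by
      apply hinj
      rw [← hc, map_zero]
    exact (div_ne_zero hb ha) (neg_eq_zero.1 h1)
  obtain ⟨D, hD, hDc⟩ := exists_denom c
  obtain ⟨M, hM1, hM⟩ := exists_S1 hDc
  have hDE : (D : E) ≠ 0 := by exact_mod_cast hD
  set A : ℕ := D.natAbs + M with hA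
  have hA1 : 1 ≤ A := by omega
  obtain ⟨C, hC, h⟩ := hDV E δ hδ
  refine ⟨C * (A : ℝ) ^ δ, by positivity, fun B hB γ hγ Z hZ => ?_⟩
  set γ' : E := (D : E) ^ 2 * algebraMap K E (γ / a) with hγ'
  have hγ0 : γ' ≠ 0 := by
    refine mul_ne_zero (pow_ne_zero _ hDE) ?_
    intro h0
    rw [← map_zero (algebraMap K E)] at h0
    exact div_ne_zero hγ ha (hinj h0)
  let F : K × K → E × E := fun p =>
    ((D : E) * algebraMap K E p.1 - (D : E) * c * algebraMap K E p.2,
      (D : E) * algebraMap K E p.1 + (D : E) * c * algebraMap K E p.2)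
  have hF : Function.Injective F := by
    intro p q hpq
    have e1 : (D : E) * algebraMap K E p.1 - (D : E) * c * algebraMap K E p.2 =
      (D : E) * algebraMap K E q.1 - (D : E) * c * algebraMap K E q.2 := congrArg Prod.fst hpq
    have e2 : (D : E) * algebraMap K E p.1 + (D : E) * c * algebraMap K E p.2 =
      (D : E) * algebraMap K E q.1 + (D : E) * c * algebraMap K E q.2 := congrArg Prod.snd hpq
    have h2 : (2 : E) ≠ 0 := two_ne_zero
    have e3 : (2 * (D : E)) * algebraMap K E p.1 = (2 * (D : E)) * algebraMap K E q.1 := by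
      linear_combination e1 + e2
    have e4 : (2 * (D : E) * c) * algebraMap K E p.2 = (2 * (D : E) * c) * algebraMap K E q.2 := by
      linear_combination e2 - e1
    exact Prod.ext (hinj (mul_left_cancel₀ (mul_ne_zero h2 hDE) e3))
      (hinj (mul_left_cancel₀ (mul_ne_zero (mul_ne_zero h2 hDE) hc0) e4))
  have h1 := h (A * B) (Nat.mul_pos hA1 hB) γ' hγ0 (Z.image F) (by
    intro z hz
    rw [Finset.mem_image] at hz
    obtain ⟨p, hp, rfl⟩ := hz
    obtain ⟨hx, hy, hxy⟩ := hZ p hp
    have g1 : (D : E) * algebraMap K E p.1 ∈ S1 E (D.natAbs * B) := S1_mul (int_S1 D) (S1_map hx)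
    have g2 : (D : E) * c * algebraMap K E p.2 ∈ S1 E (M * B) := S1_mul hM (S1_map hy)
    have e : A * B = D.natAbs * B + M * B := by rw [hA, add_mul]
    refine ⟨?_, ?_, ?_⟩
    · rw [e]; exact S1_sub g1 g2
    · rw [e]; exact S1_add g1 g2
    · have e1 : γ / a = p.1 ^ 2 + b / a * p.2 ^ 2 := by
        rw [← hxy]; field_simp
      have e2 : algebraMap K E (γ / a) = algebraMap K E p.1 ^ 2 - c ^ 2 * algebraMap K E p.2 ^ 2 := by
        rw [e1, map_add, map_mul, map_pow, map_pow, hc, map_neg]
        ring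
      change ((D : E) * algebraMap K E p.1 - (D : E) * c * algebraMap K E p.2) *
        ((D : E) * algebraMap K E p.1 + (D : E) * c * algebraMap K E p.2) = γ'
      rw [hγ', e2]
      ring)
  rw [Finset.card_image_of_injective _ hF] at h1
  refine h1.trans (le_of_eq ?_)
  rw [Nat.cast_mul, Real.mul_rpow (Nat.cast_nonneg _) (Nat.cast_nonneg _)]
  ring

end Pool.Agent.Q279.MC.JBQ
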