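import Pool.Agent.Q279.MC.J.Bas79

/-!
# Project MC, job DV: factorisations of an element in a box
-/

set_option autoImplicit false

namespace Pool.Agent.Q279.MC.JDV

open Finset NumberField
open Pool.Agent.Q35.MM Pool.Agent.Q279.MC.Bas79
open Pool.Agent.H57R3.VJ

theorem main : S_DV := by
  intro E _ _ δ hδ
  classical
  have hd : 0 < (dg E : ℝ) := by exact_mod_cast dg_pos
  obtain ⟨C, hC, h⟩ := supp_card (K := E) (δ := δ / (5 * dg E)) (by positivity)
  refine ⟨C, hC.le, fun B hB γ hγ Z hZ => ?_⟩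
  have hB1 : (1 : ℝ) ≤ B := by exact_mod_cast hB
  have hB0 : (0 : ℝ) < B := by linarith
  rcases Z.eq_empty_or_nonempty with hZ0 | ⟨p₀, hp₀⟩
  · rw [hZ0, Finset.card_empty, Nat.cast_zero]
    positivity
  have hγB : γ ∈ S1 E (B * B) := by
    obtain ⟨h1, h2, h3⟩ := hZ p₀ hp₀
    rw [← h3]
    exact S1_mul h1 h2
  have hγh : Height.mulHeight₁ γ ≤ ((B : ℝ) ^ dg E) ^ 2 := by
    refine (height_le (Nat.mul_pos hB hB) hγB).trans (le_of_eq ?_)
    push_cast
    rw [mul_pow]; ring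
  have hfin : {v : FinitePlace E | v γ ≠ 1}.Finite := FinitePlace.hasFiniteMulSupport hγ
  obtain ⟨Q, hQ⟩ : ∃ Q : Finset (FinitePlace E), ∀ v, v ∈ Q ↔ v γ ≠ 1 :=
    ⟨hfin.toFinset, fun v => by rw [Set.Finite.mem_toFinset, Set.mem_ofPred_eq]⟩
  have hQm : ∀ v : FinitePlace E, v ∉ Q → v γ = 1 := by
    intro v hv
    by_contra hcon
    exact hv ((hQ v).2 hcon)
  have hQn : ∀ v ∈ Q, v γ ≠ 1 := fun v hv => (hQ v).1 hv
  have hne : ∀ p ∈ Z, p.1 ≠ 0 ∧ p.2 ≠ 0 := by
    intro p hp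
    have h3 := (hZ p hp).2.2
    constructor
    · intro h0; rw [h0, zero_mul] at h3; exact hγ h3.symm
    · intro h0; rw [h0, mul_zero] at h3; exact hγ h3.symm
  have hX : (1 : ℝ) ≤ (B : ℝ) ^ dg E := one_le_pow₀ hB1
  have h1 := h ((B : ℝ) ^ dg E) hX Q (Z.image Prod.fst) (by
    intro u hu
    rw [Finset.mem_image] at hu
    obtain ⟨p, hp, rfl⟩ := hu
    obtain ⟨hx, hy, hxy⟩ := hZ p hp
    refine ⟨(hne p hp).1, height_le hB hx, fun v hv => ?_⟩
    have e1 : v p.1 * v p.2 = 1 := by rw [← map_mul, hxy]; exact hQm v hv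
    have e2 := fin_le_one v hx.1
    have e3 := fin_le_one v hy.1
    have e4 : 0 ≤ v p.1 := apply_nonneg v _
    have e5 : 0 ≤ v p.2 := apply_nonneg v _
    nlinarith)
  have h2 : (Z.image Prod.fst).card = Z.card := by
    apply Finset.card_image_of_injOn
    intro p hp q hq hpq
    have e1 := (hZ p hp).2.2
    have e2 := (hZ q hq).2.2
    have hpq' : p.1 = q.1 := hpq
    refine Prod.ext hpq' ?_
    have e3 : p.1 * p.2 = p.1 * q.2 := by rw [e1, hpq', e2]
    exact mul_left_cancel₀ (hne p hp).1 e3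
  have h3 : ∏ v ∈ Q, NN v ≤ (B : ℝ) ^ (4 * dg E) := by
    calc ∏ v ∈ Q, NN v ≤ ∏ v ∈ Q, NN v ^ (ev v γ).natAbs := by
          apply Finset.prod_le_prod fun v _ => (NN_pos v).le
          intro v hv
          have hv0 : (ev v γ).natAbs ≠ 0 := by
            intro h0
            have : ev v γ = 0 := Int.natAbs_eq_zero.1 h0
            apply hQn v hv
            rw [ev_spec v hγ, this, zpow_zero]
          exact le_self_pow₀ (by linarith [two_le_NN v]) hv0
      _ ≤ (((B : ℝ) ^ dg E) ^ 2) ^ 2 := prod_ev_le hγ Q hγh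
      _ = _ := by rw [← pow_mul, ← pow_mul]; congr 1; ring
  have h30 : 0 ≤ ∏ v ∈ Q, NN v := Finset.prod_nonneg fun v _ => (NN_pos v).le
  rw [h2] at h1
  calc (Z.card : ℝ) ≤ C * ((B : ℝ) ^ dg E) ^ (δ / (5 * dg E)) * (∏ v ∈ Q, NN v) ^ (δ / (5 * dg E)) :=
        h1
    _ ≤ C * ((B : ℝ) ^ dg E) ^ (δ / (5 * dg E)) * ((B : ℝ) ^ (4 * dg E)) ^ (δ / (5 * dg E)) := by
        apply mul_le_mul_of_nonneg_left _ (by positivity)
        exact Real.rpow_le_rpow h30 h3 (by positivity)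
    _ = C * (B : ℝ) ^ δ := by
        rw [mul_assoc, ← Real.rpow_natCast, ← Real.rpow_natCast, ← Real.rpow_mul hB0.le,
          ← Real.rpow_mul hB0.le, ← Real.rpow_add hB0]
        congr 2
        push_cast
        field_simp
        ring

end Pool.Agent.Q279.MC.JDV
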