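import Pool.Agent.Q279.MC.J.Bas79
import Pool.Agent.Q24.MM.MK

/-!
# Project MC, job FI: the points of bounded height on a fibre
-/

set_option autoImplicit false
set_option linter.unusedSectionVars false

namespace Pool.Agent.Q279.MC.JFI

open Finset NumberField
open Pool.Agent.Q35.MM Pool.Agent.Q279.MC.Bas79

theorem exists_box (K : Type) [Field K] [NumberField K] (ι : Type) [Fintype ι] :
    ∃ c : ℕ, 1 ≤ c ∧ ∀ x : ι → K, x ≠ 0 → ∀ b : ℕ, 1 ≤ b →
      Height.mulHeight x ≤ (b : ℝ) ^ dg K → ∃ μ : K, μ ≠ 0 ∧ ∀ i, μ * x i ∈ S1 K (c * b) := by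
  classical
  obtain ⟨c, hc, h⟩ := Pool.Agent.Q24.MM.mk K
  refine ⟨c, hc, fun x hx b hb hH => ?_⟩
  set f := Fintype.equivFin ι with hf
  obtain ⟨μ, hμ, h1⟩ := h (Fintype.card ι) (x ∘ f.symm) (by
    intro h0
    apply hx
    funext i
    have := congrFun h0 (f i)
    simpa using this) b hb (by rw [Height.mulHeight_comp_equiv]; exact hH)
  refine ⟨μ, hμ, fun i => ?_⟩
  have h2 := mem_bx.1 h1 (f i)
  simpa using h2

theorem exists_root {d : ℕ} (hd : 0 < d) {H : ℝ} (hH : 1 ≤ H) :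
    ∃ b : ℕ, 1 ≤ b ∧ H ≤ (b : ℝ) ^ d ∧ ((b : ℝ) / 2) ^ d ≤ H := by
  have hdR : (0 : ℝ) < d := by exact_mod_cast hd
  set x : ℝ := H ^ ((1 : ℝ) / d) with hx
  have hx1 : 1 ≤ x := Real.one_le_rpow hH (by positivity)
  have hxd : x ^ d = H := by
    rw [hx, ← Real.rpow_natCast, ← Real.rpow_mul (by linarith), one_div,
      inv_mul_cancel₀ hdR.ne', Real.rpow_one]
  refine ⟨⌈x⌉₊, Nat.one_le_ceil_iff.2 (by linarith), ?_, ?_⟩
  · rw [← hxd]
    exact pow_le_pow_left₀ (by linarith) (Nat.le_ceil x) _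
  · rw [← hxd]
    refine pow_le_pow_left₀ (by positivity) ?_ _
    have := Nat.ceil_lt_add_one (a := x) (by linarith)
    linarith

theorem smul_vec {K : Type} [Field K] {r s N : ℕ} (e : Fin s → ℕ) (u : Fin N → K) (μ : K)
    (y : Fin r → K) (t : Fin s → K) : μ • vec e u y t = vec e u (μ • y) (μ • t) := by
  funext i
  rcases i with i | p
  · rfl
  · change μ * (t p.1 * u p.2 ^ e p.1) = μ * t p.1 * u p.2 ^ e p.1
    ring

theorem main : S_QR → S_TC → S_FI := by
  intro hQR hTC K _ _ r s N hr hs a ha e δ hδ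
  classical
  set d := dg K with hd
  have hd0 : 0 < d := dg_pos
  have hdR : (0 : ℝ) < d := by exact_mod_cast hd0
  obtain ⟨c, hc, hbox⟩ := exists_box K (Fin r ⊕ (Fin s × Fin N))
  have hcR : (1 : ℝ) ≤ c := by exact_mod_cast hc
  obtain ⟨C1, hC1, h1⟩ := hQR K r hr a ha (d * δ) (by positivity)
  choose C2 hC2 h2 using fun k : Fin s => hTC K N (e k)
  have hrR : (2 : ℝ) ≤ r := by exact_mod_cast hr
  have hsR : (1 : ℝ) ≤ s := by exact_mod_cast hs
  set E : ℝ := (r : ℝ) + s - 2 + δ with hE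
  have hE0 : 0 < E := by rw [hE]; linarith
  set A : ℝ := C1 * (∏ k, C2 k) * ((2 * (c : ℝ)) ^ d) ^ E with hA
  have hA0 : 0 ≤ A := by
    have : 0 ≤ ∏ k, C2 k := Finset.prod_nonneg fun k _ => hC2 k
    positivity
  set A' : ℝ := ∑ k, C2 k * (2 * (c : ℝ)) ^ d with hA'
  have hA'k : ∀ k, C2 k * (2 * (c : ℝ)) ^ d ≤ A' := fun k =>
    Finset.single_le_sum (f := fun k => C2 k * (2 * (c : ℝ)) ^ d)
      (fun k _ => mul_nonneg (hC2 k) (by positivity)) (Finset.mem_univ k)
  have hA'0 : 0 ≤ A' := Finset.sum_nonneg fun k _ => mul_nonneg (hC2 k) (by positivity)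
  refine ⟨1 + A + A', by linarith, fun u hu g R hR => ?_⟩
  have hR0 : 0 < R := by linarith
  have hRE : 0 < R ^ E := Real.rpow_pos_of_pos hR0 _
  set W := {w | w ∈ Fib a e u g ∧ w.mulHeight ≤ R} with hW
  set H := Height.mulHeight u with hH
  have hH1 : 1 ≤ H := Height.one_le_mulHeight u
  have hH0 : 0 < H := by linarith
  rcases W.eq_empty_or_nonempty with hWe | hWn
  · rw [hWe]
    refine ⟨Set.finite_empty, ?_, fun h => absurd h Set.not_nonempty_empty⟩
    rw [Set.ncard_empty, Nat.cast_zero, zero_mul]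
    positivity
  obtain ⟨w0, hw0⟩ := hWn
  obtain ⟨b, hb1, hRb, hbR⟩ := exists_root hd0 hR
  have hcb : 1 ≤ c * b := Nat.mul_pos hc hb1
  have hcbR : (0 : ℝ) < ((c * b : ℕ) : ℝ) := by exact_mod_cast hcb
  have hcbd : ((c * b : ℕ) : ℝ) ^ d ≤ (2 * (c : ℝ)) ^ d * R := by
    have e1 : ((c * b : ℕ) : ℝ) ^ d = (2 * (c : ℝ)) ^ d * ((b : ℝ) / 2) ^ d := by
      rw [← mul_pow]; congr 1; push_cast; ring
    rw [e1]
    exact mul_le_mul_of_nonneg_left hbR (by positivity)
  obtain ⟨j0, hj0⟩ := Function.ne_iff.1 hu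
  have hfin : ∀ k : Fin s, {t : K | t ≠ 0 ∧ ∀ j, t * u j ^ e k ∈ S1 K (c * b)}.Finite := by
    intro k
    refine Set.Finite.subset (Set.Finite.preimage (f := fun t : K => t * u j0 ^ e k)
      ((mul_left_injective₀ (pow_ne_zero _ hj0)).injOn) (S1_finite K (c * b))) ?_
    rintro t ⟨-, ht⟩
    exact ht j0
  obtain ⟨T, hT⟩ : ∃ T : Fin s → Finset K, ∀ k t, t ∈ T k ↔
      (t ≠ 0 ∧ ∀ j, t * u j ^ e k ∈ S1 K (c * b)) :=
    ⟨fun k => (hfin k).toFinset, fun k t => by rw [Set.Finite.mem_toFinset, Set.mem_ofPred_eq]⟩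
  have hTcard : ∀ k, ((T k).card : ℝ) * H ^ e k ≤ C2 k * ((c * b : ℕ) : ℝ) ^ d := fun k =>
    h2 k u hu (c * b) hcb (T k) fun t ht => (hT k t).1 ht
  set P : Finset ((Fin r → K) × (Fin s → K)) :=
    ((bx K r (c * b)) ×ˢ Fintype.piFinset T).filter fun p =>
      ∑ i, a i * p.1 i ^ 2 = ∑ k, ∑ l, g k l * p.2 k * p.2 l ∧ ∑ i, a i * p.1 i ^ 2 ≠ 0 with hP
  -- every point comes from `P`
  have key : ∀ w ∈ W, ∃ p ∈ P, ∃ μ : K, μ • w.rep = vec e u p.1 p.2 ∧ μ ≠ 0 := by
    rintro w ⟨⟨y, t, hyt, ht, hq, hq0⟩, hwR⟩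
    obtain ⟨μ, hμ, hμS⟩ := hbox w.rep w.rep_nonzero b hb1 (by
      have e1 : w.mulHeight = Height.mulHeight w.rep := by
        conv_lhs => rw [← w.mk_rep]
        exact Projectivization.mulHeight_mk _
      rw [← e1]
      exact hwR.trans hRb)
    rw [hyt] at hμS
    refine ⟨(μ • y, μ • t), ?_, μ, ?_, hμ⟩
    · rw [hP, Finset.mem_filter, Finset.mem_product, Fintype.mem_piFinset]
      refine ⟨⟨mem_bx.2 fun i => hμS (Sum.inl i), fun k => (hT k _).2 ⟨mul_ne_zero hμ (ht k),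
        fun j => ?_⟩⟩, ?_, ?_⟩
      · have h3 := hμS (Sum.inr (k, j))
        have e2 : (μ • t) k * u j ^ e k = μ * vec e u y t (Sum.inr (k, j)) := by
          change μ * t k * u j ^ e k = μ * (t k * u j ^ e k)
          ring
        rw [e2]
        exact h3
      · have e3 : ∑ i, a i * (μ • y) i ^ 2 = μ ^ 2 * ∑ i, a i * y i ^ 2 := by
          rw [Finset.mul_sum]
          refine Finset.sum_congr rfl fun i _ => ?_
          rw [Pi.smul_apply, smul_eq_mul]; ring
        have e4 : ∑ k, ∑ l, g k l * (μ • t) k * (μ • t) l =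
            μ ^ 2 * ∑ k, ∑ l, g k l * t k * t l := by
          rw [Finset.mul_sum]
          refine Finset.sum_congr rfl fun k _ => ?_
          rw [Finset.mul_sum]
          refine Finset.sum_congr rfl fun l _ => ?_
          rw [Pi.smul_apply, Pi.smul_apply, smul_eq_mul, smul_eq_mul]; ring
        rw [e3, e4, hq]
      · have e3 : ∑ i, a i * (μ • y) i ^ 2 = μ ^ 2 * ∑ i, a i * y i ^ 2 := by
          rw [Finset.mul_sum]
          refine Finset.sum_congr rfl fun i _ => ?_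
          rw [Pi.smul_apply, smul_eq_mul]; ring
        rw [e3]
        exact mul_ne_zero (pow_ne_zero _ hμ) hq0
    · rw [hyt, smul_vec]
  let Ψ : (Fin r → K) × (Fin s → K) → Projectivization K (Fin r ⊕ (Fin s × Fin N) → K) :=
    fun p => if h : vec e u p.1 p.2 ≠ 0 then Projectivization.mk K _ h else w0
  have hsub : W ⊆ Ψ '' (P : Set ((Fin r → K) × (Fin s → K))) := by
    intro w hw
    obtain ⟨p, hp, μ, hμp, hμ⟩ := key w hw
    refine ⟨p, hp, ?_⟩
    have hv : vec e u p.1 p.2 ≠ 0 := by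
      rw [← hμp]
      exact smul_ne_zero hμ w.rep_nonzero
    change (if h : vec e u p.1 p.2 ≠ 0 then Projectivization.mk K _ h else w0) = w
    rw [dif_pos hv]
    conv_rhs => rw [← w.mk_rep]
    rw [Projectivization.mk_eq_mk_iff']
    exact ⟨μ, hμp⟩
  have hfinP : (Ψ '' (P : Set ((Fin r → K) × (Fin s → K)))).Finite := P.finite_toSet.image Ψ
  have hWfin : W.Finite := hfinP.subset hsub
  have hWcard : W.ncard ≤ P.card := by
    refine (Set.ncard_le_ncard hsub hfinP).trans ?_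
    refine (Set.ncard_image_le P.finite_toSet).trans ?_
    rw [Set.ncard_coe_finset]
  -- the cardinality of `P`
  have hPcard : (P.card : ℝ) ≤ (∏ k, ((T k).card : ℝ)) *
      (C1 * ((c * b : ℕ) : ℝ) ^ ((d : ℝ) * ((r : ℝ) - 2) + d * δ)) := by
    have e1 : P.card = ∑ t ∈ Fintype.piFinset T, (P.filter fun p => p.2 = t).card := by
      refine Finset.card_eq_sum_card_fiberwise (f := Prod.snd) ?_
      intro p hp
      rw [hP, Finset.mem_coe, Finset.mem_filter, Finset.mem_product] at hp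
      exact hp.1.2
    have e2 : ∀ t ∈ Fintype.piFinset T, ((P.filter fun p => p.2 = t).card : ℝ) ≤
        C1 * ((c * b : ℕ) : ℝ) ^ ((d : ℝ) * ((r : ℝ) - 2) + d * δ) := by
      intro t ht
      rcases eq_or_ne (∑ k, ∑ l, g k l * t k * t l) 0 with h0 | h0
      · have h3 : P.filter (fun p => p.2 = t) = ∅ := by
          rw [Finset.filter_eq_empty_iff]
          intro p hp hpt
          rw [hP, Finset.mem_filter] at hp
          obtain ⟨-, h4, h5⟩ := hp
          rw [hpt, h0] at h4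
          exact h5 h4
        rw [h3, Finset.card_empty, Nat.cast_zero]
        positivity
      · have h3 := h1 (c * b) hcb _ h0 ((P.filter fun p => p.2 = t).image Prod.fst) (by
          intro y hy
          rw [Finset.mem_image] at hy
          obtain ⟨p, hp, rfl⟩ := hy
          rw [Finset.mem_filter, hP, Finset.mem_filter, Finset.mem_product] at hp
          obtain ⟨⟨⟨h4, -⟩, h5, -⟩, h6⟩ := hp
          refine ⟨h4, ?_⟩
          rw [h5, h6])
        rw [Finset.card_image_of_injOn (fun p hp q hq hpq => by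
          rw [Finset.mem_coe, Finset.mem_filter] at hp hq
          exact Prod.ext hpq (hp.2.trans hq.2.symm))] at h3
        exact h3
    calc (P.card : ℝ) = ∑ t ∈ Fintype.piFinset T, ((P.filter fun p => p.2 = t).card : ℝ) := by
          rw [e1]; push_cast; rfl
      _ ≤ ∑ t ∈ Fintype.piFinset T,
          C1 * ((c * b : ℕ) : ℝ) ^ ((d : ℝ) * ((r : ℝ) - 2) + d * δ) := Finset.sum_le_sum e2
      _ = _ := by
          rw [Finset.sum_const, nsmul_eq_mul, Fintype.card_piFinset]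
          push_cast
          rfl
  refine ⟨hWfin, ?_, fun _ k => ?_⟩
  · have e1 : (∏ k, ((T k).card : ℝ)) * H ^ (∑ k, e k) ≤
        (∏ k, C2 k) * (((c * b : ℕ) : ℝ) ^ d) ^ s := by
      calc (∏ k, ((T k).card : ℝ)) * H ^ (∑ k, e k) = ∏ k, ((T k).card : ℝ) * H ^ e k := by
            rw [Finset.prod_mul_distrib, Finset.prod_pow_eq_pow_sum]
        _ ≤ ∏ k, C2 k * ((c * b : ℕ) : ℝ) ^ d :=
            Finset.prod_le_prod (fun k _ => by positivity) fun k _ => hTcard k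
        _ = _ := by rw [Finset.prod_mul_distrib, Finset.prod_const, Finset.card_univ,
              Fintype.card_fin]
    have e2 : (((c * b : ℕ) : ℝ) ^ d) ^ s * ((c * b : ℕ) : ℝ) ^ ((d : ℝ) * ((r : ℝ) - 2) + d * δ) =
        (((c * b : ℕ) : ℝ) ^ d) ^ E := by
      rw [← pow_mul, ← Real.rpow_natCast _ (d * s), ← Real.rpow_add hcbR, ← Real.rpow_natCast _ d,
        ← Real.rpow_mul hcbR.le, hE]
      congr 1
      push_cast
      ring
    have e3 : (((c * b : ℕ) : ℝ) ^ d) ^ E ≤ ((2 * (c : ℝ)) ^ d) ^ E * R ^ E := by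
      rw [← Real.mul_rpow (by positivity) hR0.le]
      exact Real.rpow_le_rpow (by positivity) hcbd hE0.le
    have hprodC : 0 ≤ ∏ k, C2 k := Finset.prod_nonneg fun k _ => hC2 k
    calc (W.ncard : ℝ) * H ^ (∑ k, e k) ≤ P.card * H ^ (∑ k, e k) := by
          have : (W.ncard : ℝ) ≤ P.card := by exact_mod_cast hWcard
          gcongr
      _ ≤ ((∏ k, ((T k).card : ℝ)) *
          (C1 * ((c * b : ℕ) : ℝ) ^ ((d : ℝ) * ((r : ℝ) - 2) + d * δ))) * H ^ (∑ k, e k) := by
          gcongr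
      _ = ((∏ k, ((T k).card : ℝ)) * H ^ (∑ k, e k)) *
          (C1 * ((c * b : ℕ) : ℝ) ^ ((d : ℝ) * ((r : ℝ) - 2) + d * δ)) := by ring
      _ ≤ ((∏ k, C2 k) * (((c * b : ℕ) : ℝ) ^ d) ^ s) *
          (C1 * ((c * b : ℕ) : ℝ) ^ ((d : ℝ) * ((r : ℝ) - 2) + d * δ)) :=
          mul_le_mul_of_nonneg_right e1 (by positivity)
      _ = C1 * (∏ k, C2 k) * ((((c * b : ℕ) : ℝ) ^ d) ^ s *
          ((c * b : ℕ) : ℝ) ^ ((d : ℝ) * ((r : ℝ) - 2) + d * δ)) := by ring
      _ = C1 * (∏ k, C2 k) * (((c * b : ℕ) : ℝ) ^ d) ^ E := by rw [e2]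
      _ ≤ C1 * (∏ k, C2 k) * (((2 * (c : ℝ)) ^ d) ^ E * R ^ E) :=
          mul_le_mul_of_nonneg_left e3 (by positivity)
      _ = A * R ^ E := by rw [hA]; ring
      _ ≤ (1 + A + A') * R ^ E := by
          apply mul_le_mul_of_nonneg_right _ hRE.le
          linarith
  · obtain ⟨p, hp, -⟩ := key w0 hw0
    rw [hP, Finset.mem_filter, Finset.mem_product, Fintype.mem_piFinset] at hp
    have h3 : 1 ≤ (T k).card := Finset.card_pos.2 ⟨_, hp.1.2 k⟩
    have h3R : (1 : ℝ) ≤ (T k).card := by exact_mod_cast h3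
    calc H ^ e k = 1 * H ^ e k := (one_mul _).symm
      _ ≤ (T k).card * H ^ e k := mul_le_mul_of_nonneg_right h3R (by positivity)
      _ ≤ C2 k * ((c * b : ℕ) : ℝ) ^ d := hTcard k
      _ ≤ C2 k * ((2 * (c : ℝ)) ^ d * R) := mul_le_mul_of_nonneg_left hcbd (hC2 k)
      _ = C2 k * (2 * (c : ℝ)) ^ d * R := by ring
      _ ≤ A' * R := mul_le_mul_of_nonneg_right (hA'k k) hR0.le
      _ ≤ (1 + A + A') * R := by
          apply mul_le_mul_of_nonneg_right _ hR0.le
          linarith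

end Pool.Agent.Q279.MC.JFI
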