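import Pool.Agent.Q279.MC.Stm

/-!
# Project MC (helper279), job MC-FN: the count
-/

set_option autoImplicit false

namespace Pool.Agent.Q279.MC.JFN

open Finset
open Pool.Agent.Q279.MC

lemma rep_height {K : Type} [Field K] [NumberField K] {ι : Type} [Fintype ι]
    (p : Projectivization K (ι → K)) : Height.mulHeight p.rep = p.mulHeight := by
  conv_rhs => rw [← p.mk_rep]
  rw [Projectivization.mulHeight_mk]

/-- the threshold is the maximum of two numbers -/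
lemma thr_eq (r s m : ℕ) (e : Fin s → ℕ) (A α β : ℝ) (hβ : 0 < β) (hm : 0 < α + m * β) :
    thr r s m e A α β = max (((r : ℝ) + s - 2) / β)
      ((A - ∑ k, (e k : ℝ) + m * ((r : ℝ) + s - 2)) / (α + m * β)) := by
  obtain ⟨ρ, hρ⟩ : ∃ ρ : ℝ, ρ = (r : ℝ) + s - 2 := ⟨_, rfl⟩
  obtain ⟨E, hE⟩ : ∃ E : ℝ, E = ∑ k, (e k : ℝ) := ⟨_, rfl⟩
  unfold thr
  rw [← hρ, ← hE]
  have h1 : {σ : ℝ | 0 ≤ σ * β - ρ ∧ 0 ≤ (σ * α + E - A) + m * (σ * β - ρ)} =
      Set.Ici (max (ρ / β) ((A - E + m * ρ) / (α + m * β))) := by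
    ext σ
    rw [Set.mem_Ici, max_le_iff, div_le_iff₀ hβ, div_le_iff₀ hm]
    constructor
    · rintro ⟨a, b⟩
      exact ⟨by linarith, by nlinarith⟩
    · rintro ⟨a, b⟩
      exact ⟨by linarith, by nlinarith⟩
  rw [h1, csInf_Ici]

/-- **FN** -/
theorem main : S_FI → S_SM → S_FN := by
  intro FI SM K _ _ r s N m hr hs a ha e hem hex g B A hA hB α β hα hβ hαβ ε hε
  classical
  obtain ⟨ρ, hρ⟩ : ∃ ρ : ℝ, ρ = (r : ℝ) + s - 2 := ⟨_, rfl⟩
  obtain ⟨E, hE⟩ : ∃ E : ℝ, E = ∑ k, (e k : ℝ) := ⟨_, rfl⟩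
  have hρ0 : 0 ≤ ρ := by
    have h1 : (2 : ℝ) ≤ r := by exact_mod_cast hr
    have h2 : (0 : ℝ) ≤ s := Nat.cast_nonneg s
    rw [hρ]
    linarith
  -- the small numbers
  obtain ⟨δ, hδ⟩ : ∃ δ : ℝ, δ = ε * β / 2 := ⟨_, rfl⟩
  obtain ⟨ε', hε'⟩ : ∃ ε' : ℝ, ε' = ε * (α + m * β) / 2 := ⟨_, rfl⟩
  have hδ0 : 0 < δ := by rw [hδ]; positivity
  have hε0 : 0 < ε' := by rw [hε']; positivity
  obtain ⟨γ, hγ⟩ : ∃ γ : ℝ, γ = α * (ρ + δ) / β + E := ⟨_, rfl⟩
  obtain ⟨C, hC1, hC⟩ := FI K r s N hr hs a ha e δ hδ0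
  -- the summation over the base
  have hfin : ∀ T : ℝ, 1 ≤ T → ({p | p ∈ B ∧ p.mulHeight ≤ T} :
      Set (Projectivization K (Fin N → K))).Finite := fun T hT => by
    obtain ⟨_, h⟩ := hB 1 one_pos
    exact (h T hT).1
  obtain ⟨D, hD0, hD⟩ := SM {p : Projectivization K (Fin N → K) // p ∈ B}
    (fun p => p.1.mulHeight) A (fun p => p.1.one_le_mulHeight) hA (by
      intro ε₁ hε₁
      obtain ⟨C₁, hC₁⟩ := hB ε₁ hε₁
      refine ⟨C₁, fun T hT => ?_⟩
      obtain ⟨h1, h2⟩ := hC₁ T hT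
      have e1 : (Subtype.val '' {p : {p : Projectivization K (Fin N → K) // p ∈ B} |
          p.1.mulHeight ≤ T}) = {p | p ∈ B ∧ p.mulHeight ≤ T} := by
        ext p
        constructor
        · rintro ⟨q, hq, rfl⟩
          exact ⟨q.2, hq⟩
        · rintro ⟨hp, hq⟩
          exact ⟨⟨p, hp⟩, hq, rfl⟩
      refine ⟨Set.Finite.of_finite_image (by rw [e1]; exact h1) Subtype.val_injective.injOn, ?_⟩
      rw [← Set.ncard_image_of_injective _ Subtype.val_injective, e1]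
      exact h2) γ ε' hε0
  obtain ⟨κ, hκ⟩ : ∃ κ : ℝ, κ = max 0 (A - γ) + ε' := ⟨_, rfl⟩
  have hκ0 : 0 ≤ κ := by
    rw [hκ]
    have := le_max_left 0 (A - γ)
    linarith
  have hC0 : 0 < C := by linarith
  refine ⟨C * (D * (C ^ β) ^ (κ / (α + m * β))), fun T hT => ?_⟩
  have hT0 : 0 < T := by linarith
  obtain ⟨Z, hZ⟩ : ∃ Z : ℝ, Z = (C ^ β * T) ^ (1 / (α + m * β)) := ⟨_, rfl⟩
  have hCb : (1 : ℝ) ≤ C ^ β := Real.one_le_rpow hC1 hβ.le
  have hCT : (1 : ℝ) ≤ C ^ β * T := by nlinarith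
  have hZ1 : 1 ≤ Z := by
    rw [hZ]
    exact Real.one_le_rpow hCT (by positivity)
  -- the fibres
  obtain ⟨R, hR⟩ : ∃ R : Projectivization K (Fin N → K) → ℝ,
      ∀ p, R p = (T / p.mulHeight ^ α) ^ (1 / β) := ⟨_, fun _ => rfl⟩
  have hR0 : ∀ p, 0 < R p := fun p => by
    rw [hR]
    have := p.mulHeight_pos
    positivity
  obtain ⟨W, hW⟩ : ∃ W : Projectivization K (Fin N → K) →
      Set (Projectivization K (Fin r ⊕ (Fin s × Fin N) → K)),
      ∀ p, W p = {w | w ∈ Fib a e p.rep (g p) ∧ w.mulHeight ≤ R p} := ⟨_, fun _ => rfl⟩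
  have hle : ∀ (p : Projectivization K (Fin N → K))
      (w : Projectivization K (Fin r ⊕ (Fin s × Fin N) → K)),
      p.mulHeight ^ α * w.mulHeight ^ β ≤ T → w.mulHeight ≤ R p := by
    intro p w h
    have hp := p.mulHeight_pos
    have hw := w.mulHeight_pos
    have h1 : w.mulHeight ^ β ≤ T / p.mulHeight ^ α := by
      rw [le_div_iff₀ (by positivity)]
      linarith
    have h2 : (w.mulHeight ^ β) ^ (1 / β) ≤ (T / p.mulHeight ^ α) ^ (1 / β) :=
      Real.rpow_le_rpow (by positivity) h1 (by positivity)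
    rw [← Real.rpow_mul hw.le, mul_one_div_cancel hβ.ne', Real.rpow_one] at h2
    rw [hR]
    exact h2
  have hWf : ∀ p, (W p).Finite ∧
      ((W p).ncard : ℝ) * p.mulHeight ^ E ≤ C * R p ^ (ρ + δ) ∧
      ((W p).Nonempty → p.mulHeight ≤ Z) := by
    intro p
    have hp := p.mulHeight_pos
    by_cases h1 : 1 ≤ R p
    · obtain ⟨b1, b2, b3⟩ := hC p.rep p.rep_nonzero (g p) (R p) h1
      rw [← hW] at b1 b2 b3
      rw [rep_height] at b2
      refine ⟨b1, ?_, fun hne => ?_⟩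
      · have e1 : p.mulHeight ^ E = p.mulHeight ^ (∑ k, e k) := by
          rw [hE, ← Real.rpow_natCast]
          push_cast
          rfl
        rw [e1, hρ]
        exact b2
      · obtain ⟨k, hk⟩ := hex
        have b4 := b3 hne k
        rw [rep_height, hk] at b4
        -- `H ^ m ≤ C R`
        have h2 : (p.mulHeight ^ m) ^ β ≤ (C * R p) ^ β :=
          Real.rpow_le_rpow (by positivity) b4 hβ.le
        rw [Real.mul_rpow hC0.le (hR0 p).le, hR, ← Real.rpow_mul (by positivity),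
          one_div_mul_cancel hβ.ne', Real.rpow_one, ← Real.rpow_natCast,
          ← Real.rpow_mul hp.le, mul_div_assoc', le_div_iff₀ (by positivity),
          ← Real.rpow_add hp] at h2
        have h3 : (p.mulHeight ^ (m * β + α)) ^ (1 / (α + m * β)) ≤ Z := by
          rw [hZ]
          exact Real.rpow_le_rpow (by positivity) h2 (by positivity)
        rwa [← Real.rpow_mul hp.le, add_comm (m * β : ℝ) α, mul_one_div_cancel hαβ.ne',
          Real.rpow_one] at h3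
    · have h2 : W p = ∅ := by
        rw [hW, Set.eq_empty_iff_forall_notMem]
        rintro w ⟨-, hw⟩
        exact h1 (w.one_le_mulHeight.trans hw)
      rw [h2]
      refine ⟨Set.finite_empty, ?_, fun h => absurd h Set.not_nonempty_empty⟩
      rw [Set.ncard_empty, Nat.cast_zero, zero_mul]
      have := hR0 p
      positivity
  -- the set
  obtain ⟨X, hX⟩ : ∃ X : Set (Projectivization K (Fin N → K) ×
      Projectivization K (Fin r ⊕ (Fin s × Fin N) → K)),
      X = {x | x.1 ∈ B ∧ x.2 ∈ Fib a e x.1.rep (g x.1) ∧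
        x.1.mulHeight ^ α * x.2.mulHeight ^ β ≤ T} := ⟨_, rfl⟩
  rw [← hX]
  obtain ⟨Bf, hBf⟩ : ∃ Bf : Finset (Projectivization K (Fin N → K)),
      ∀ p, p ∈ Bf ↔ p ∈ B ∧ p.mulHeight ≤ Z :=
    ⟨(hfin Z hZ1).toFinset, fun p => by rw [Set.Finite.mem_toFinset]; rfl⟩
  obtain ⟨Wf, hWf'⟩ : ∃ Wf : Projectivization K (Fin N → K) →
      Finset (Projectivization K (Fin r ⊕ (Fin s × Fin N) → K)), ∀ p w, w ∈ Wf p ↔ w ∈ W p :=
    ⟨fun p => (hWf p).1.toFinset, fun p w => by rw [Set.Finite.mem_toFinset]⟩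
  have hsub : X ⊆ ((Bf.sigma Wf).image fun x => (x.1, x.2) : Finset _) := by
    rintro ⟨p, w⟩ hx
    rw [hX] at hx
    obtain ⟨x1, x2, x3⟩ := hx
    have hw : w ∈ W p := by
      rw [hW]
      exact ⟨x2, hle p w x3⟩
    rw [mem_coe, mem_image]
    exact ⟨⟨p, w⟩, mem_sigma.mpr ⟨(hBf p).mpr ⟨x1, (hWf p).2.2 ⟨w, hw⟩⟩, (hWf' p w).mpr hw⟩, rfl⟩
  refine ⟨(Finset.finite_toSet _).subset hsub, ?_⟩
  have hcard : (X.ncard : ℝ) ≤ ∑ p ∈ Bf, ((W p).ncard : ℝ) := by
    have h1 : X.ncard ≤ ∑ p ∈ Bf, (Wf p).card := by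
      refine (Set.ncard_le_ncard hsub (Finset.finite_toSet _)).trans ?_
      rw [Set.ncard_coe_finset]
      exact card_image_le.trans (card_sigma _ _).le
    have h2 : ∀ p, (W p).ncard = (Wf p).card := fun p => by
      rw [← Set.ncard_coe_finset]
      congr 1
      ext w
      rw [mem_coe, hWf']
    simp only [h2]
    exact_mod_cast h1
  have hterm : ∀ p ∈ Bf, ((W p).ncard : ℝ) ≤
      C * T ^ ((ρ + δ) / β) * p.mulHeight ^ (-γ) := by
    intro p _
    have hp := p.mulHeight_pos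
    have h1 := (hWf p).2.1
    have h2 : R p ^ (ρ + δ) = T ^ ((ρ + δ) / β) * p.mulHeight ^ (-(α * (ρ + δ) / β)) := by
      have e1 : 1 / β * (ρ + δ) = (ρ + δ) / β := by ring
      have e2 : α * ((ρ + δ) / β) = α * (ρ + δ) / β := by ring
      rw [hR, ← Real.rpow_mul (by positivity), e1, Real.div_rpow hT0.le (by positivity),
        ← Real.rpow_mul hp.le, e2, Real.rpow_neg hp.le, div_eq_mul_inv]
    rw [h2] at h1
    have h3 : p.mulHeight ^ (-γ) * p.mulHeight ^ E = p.mulHeight ^ (-(α * (ρ + δ) / β)) := by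
      rw [← Real.rpow_add hp, hγ]
      congr 1
      ring
    have h4 : (0 : ℝ) < p.mulHeight ^ E := by positivity
    refine le_of_mul_le_mul_right ?_ h4
    calc ((W p).ncard : ℝ) * p.mulHeight ^ E
        ≤ C * (T ^ ((ρ + δ) / β) * p.mulHeight ^ (-(α * (ρ + δ) / β))) := h1
      _ = C * T ^ ((ρ + δ) / β) * p.mulHeight ^ (-γ) * p.mulHeight ^ E := by
        rw [← h3]
        ring
  have hsum : ∑ p ∈ Bf, p.mulHeight ^ (-γ) ≤ D * Z ^ κ := by
    have h1 := hD Z hZ1 (Bf.subtype (fun p => p ∈ B)) (fun p hp => by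
      have := mem_subtype.mp hp
      exact ((hBf _).mp this).2)
    rw [← hκ] at h1
    rw [← Finset.sum_subtype_of_mem (p := fun p => p ∈ B) (fun p => p.mulHeight ^ (-γ))
      (fun p hp => ((hBf p).mp hp).1)]
    exact h1
  have hZκ : Z ^ κ = (C ^ β) ^ (κ / (α + m * β)) * T ^ (κ / (α + m * β)) := by
    rw [hZ, ← Real.rpow_mul (by positivity), ← Real.mul_rpow (by positivity) hT0.le]
    congr 1
    ring
  have hexp : (ρ + δ) / β + κ / (α + m * β) ≤ thr r s m e A α β + ε := by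
    rw [thr_eq r s m e A α β hβ hαβ, ← hρ, ← hE, hκ, hγ, hδ, hε']
    have h1 : A - (α * (ρ + ε * β / 2) / β + E) ≤ A - α * ρ / β - E := by
      have : 0 ≤ α * (ε * β / 2) / β := by positivity
      have e1 : α * (ρ + ε * β / 2) / β = α * ρ / β + α * (ε * β / 2) / β := by ring
      rw [e1]
      linarith
    have h2 : max 0 (A - (α * (ρ + ε * β / 2) / β + E)) ≤ max 0 (A - α * ρ / β - E) :=
      max_le_max le_rfl h1
    have h3 : ρ / β + max 0 (A - α * ρ / β - E) / (α + m * β) ≤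
        max (ρ / β) ((A - E + m * ρ) / (α + m * β)) := by
      rcases max_cases 0 (A - α * ρ / β - E) with ⟨h, _⟩ | ⟨h, _⟩
      · rw [h, zero_div, add_zero]
        exact le_max_left _ _
      · rw [h]
        refine le_trans (le_of_eq ?_) (le_max_right _ _)
        have e3 : ρ / β = ρ / β * (α + m * β) / (α + m * β) := by
          rw [mul_div_assoc, div_self hαβ.ne', mul_one]
        rw [e3, ← add_div]
        congr 1
        have e4 : ρ / β * (α + m * β) = α * ρ / β + m * ρ * (β / β) := by ring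
        rw [e4, div_self hβ.ne']
        ring
    have h4 : (ρ + ε * β / 2) / β = ρ / β + ε / 2 := by
      field_simp
    have h5 : (max 0 (A - (α * (ρ + ε * β / 2) / β + E)) + ε * (α + m * β) / 2) / (α + m * β) ≤
        max 0 (A - α * ρ / β - E) / (α + m * β) + ε / 2 := by
      have h6 : ∀ M L : ℝ, L ≠ 0 → (M + ε * L / 2) / L = M / L + ε / 2 := fun M L hL => by
        field_simp
      rw [h6 _ _ hαβ.ne']
      have := div_le_div_of_nonneg_right h2 hαβ.le
      linarith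
    rw [h4]
    linarith
  calc (X.ncard : ℝ) ≤ ∑ p ∈ Bf, ((W p).ncard : ℝ) := hcard
    _ ≤ ∑ p ∈ Bf, C * T ^ ((ρ + δ) / β) * p.mulHeight ^ (-γ) := sum_le_sum hterm
    _ = C * T ^ ((ρ + δ) / β) * ∑ p ∈ Bf, p.mulHeight ^ (-γ) := by rw [mul_sum]
    _ ≤ C * T ^ ((ρ + δ) / β) * (D * Z ^ κ) := mul_le_mul_of_nonneg_left hsum (by positivity)
    _ = C * (D * (C ^ β) ^ (κ / (α + m * β))) * T ^ ((ρ + δ) / β + κ / (α + m * β)) := by
      rw [hZκ, Real.rpow_add hT0]
      ring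
    _ ≤ C * (D * (C ^ β) ^ (κ / (α + m * β))) * T ^ (thr r s m e A α β + ε) :=
      mul_le_mul_of_nonneg_left (Real.rpow_le_rpow_of_exponent_le hT hexp) (by positivity)

end Pool.Agent.Q279.MC.JFN
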