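import Pool.Agent.Q279.MC.Stm
import Pool.Agent.Q24.MM.MK
import Pool.Agent.Q144.MM.Db

/-!
Project MC (helper279), job MC-FP: the number of points of bounded height of the projective space.
-/

set_option autoImplicit false

namespace Pool.Agent.Q279.MC.JFP

open Finset
open Pool.Agent.Q35.MM

theorem main : S_FP := by
  intro K _ _ N
  classical
  obtain ⟨c, hc, hmk⟩ := Pool.Agent.Q24.MM.mk K
  have hd : 0 < dg K := Module.finrank_pos
  have hd0 : (0 : ℝ) < (dg K : ℝ) := by exact_mod_cast hd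
  obtain ⟨M, hM⟩ : ∃ M : ℝ, M = ((bx K N 1).card : ℝ) := ⟨_, rfl⟩
  have hM0 : 0 ≤ M := by
    rw [hM]
    exact Nat.cast_nonneg _
  refine ⟨(6 * c) ^ (dg K * N) * M, fun T hT => ?_⟩
  have hT0 : 0 < T := by linarith
  obtain ⟨τ, hτ⟩ : ∃ τ : ℝ, τ = T ^ ((dg K : ℝ)⁻¹) := ⟨_, rfl⟩
  have hτ1 : 1 ≤ τ := by
    rw [hτ]
    exact Real.one_le_rpow hT (by positivity)
  have hτd : τ ^ dg K = T := by
    rw [hτ, ← Real.rpow_natCast, ← Real.rpow_mul hT0.le, inv_mul_cancel₀ hd0.ne', Real.rpow_one]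
  obtain ⟨B, hB⟩ : ∃ B : ℕ, B = ⌈τ⌉₊ := ⟨_, rfl⟩
  have hB1 : τ ≤ B := by
    rw [hB]
    exact Nat.le_ceil _
  have hB2 : (B : ℝ) < τ + 1 := by
    rw [hB]
    exact Nat.ceil_lt_add_one (by linarith)
  have hB0 : 1 ≤ B := by
    have : (1 : ℝ) ≤ B := le_trans hτ1 hB1
    exact_mod_cast this
  have hTB : T ≤ (B : ℝ) ^ dg K := by
    rw [← hτd]
    gcongr
  -- representatives
  have key : ∀ p : Projectivization K (Fin N → K), p.mulHeight ≤ T →
      ∃ t : K, t ≠ 0 ∧ t • p.rep ∈ bx K N (c * B) := by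
    intro p hp
    refine hmk N p.rep p.rep_nonzero B hB0 (le_trans (le_of_eq ?_) (le_trans hp hTB))
    conv_rhs => rw [← p.mk_rep]
    rw [Projectivization.mulHeight_mk]
  choose! t ht0 ht1 using key
  have hmaps : ∀ p ∈ {p : Projectivization K (Fin N → K) | p.mulHeight ≤ T},
      t p • p.rep ∈ (↑(bx K N (c * B)) : Set (Fin N → K)) := fun p hp => ht1 p hp
  have hinj : Set.InjOn (fun p : Projectivization K (Fin N → K) => t p • p.rep)
      {p : Projectivization K (Fin N → K) | p.mulHeight ≤ T} := by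
    intro p hp q hq hpq
    have h1 : t p • p.rep = t q • q.rep := hpq
    rw [← p.mk_rep, ← q.mk_rep]
    rw [Projectivization.mk_eq_mk_iff']
    refine ⟨(t p)⁻¹ * t q, ?_⟩
    rw [mul_smul, ← h1, smul_smul, inv_mul_cancel₀ (ht0 p hp), one_smul]
  have hfin : (↑(bx K N (c * B)) : Set (Fin N → K)).Finite := Finset.finite_toSet _
  refine ⟨Set.Finite.of_injOn hmaps hinj hfin, ?_⟩
  have h1 : ({p : Projectivization K (Fin N → K) | p.mulHeight ≤ T}).ncard ≤
      (bx K N (c * B)).card := by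
    have := Set.ncard_le_ncard_of_injOn _ hmaps hinj hfin
    rwa [Set.ncard_coe_finset] at this
  have h2 : ((bx K N (c * B)).card : ℝ) ≤ (3 * (c * B : ℕ) / (1 : ℕ)) ^ (dg K * N) * M := by
    have h3 := _root_.Q144.MM.db K N (⊤ : Submodule K (Fin N → K)) N
      (by
        rw [finrank_top]
        simp) (c * B) 1 le_rfl (Nat.one_le_iff_ne_zero.mpr (by
          have : 0 < c * B := Nat.mul_pos hc hB0
          omega))
    have h4 : ∀ b, (bx K N b).filter (· ∈ (⊤ : Submodule K (Fin N → K))) = bx K N b := by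
      intro b
      exact Finset.filter_true_of_mem fun x _ => Submodule.mem_top
    rw [h4, h4] at h3
    rw [hM]
    exact h3
  have h5 : (3 * ((c * B : ℕ) : ℝ) / ((1 : ℕ) : ℝ)) ≤ 6 * c * τ := by
    push_cast
    have hc0 : (0 : ℝ) ≤ c := Nat.cast_nonneg _
    have h6 : (B : ℝ) ≤ 2 * τ := by linarith
    have h7 := mul_le_mul_of_nonneg_left h6 hc0
    linarith
  have h8 : (3 * ((c * B : ℕ) : ℝ) / ((1 : ℕ) : ℝ)) ^ (dg K * N) ≤ (6 * c * τ) ^ (dg K * N) := by
    gcongr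
  calc (({p : Projectivization K (Fin N → K) | p.mulHeight ≤ T}).ncard : ℝ)
      ≤ ((bx K N (c * B)).card : ℝ) := by exact_mod_cast h1
    _ ≤ (3 * ((c * B : ℕ) : ℝ) / ((1 : ℕ) : ℝ)) ^ (dg K * N) * M := h2
    _ ≤ (6 * c * τ) ^ (dg K * N) * M := mul_le_mul_of_nonneg_right h8 hM0
    _ = (6 * c) ^ (dg K * N) * M * T ^ (N : ℝ) := by
      rw [mul_pow (6 * (c : ℝ)) τ, pow_mul τ, hτd, Real.rpow_natCast]
      ring

end Pool.Agent.Q279.MC.JFP
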