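import Pool.Agent.Q279.MC.J.Bas79

/-!
# Project MC, job QR: quadratic forms in at least two variables
-/

set_option autoImplicit false
set_option linter.unusedSectionVars false

namespace Pool.Agent.Q279.MC.JQR

open Finset NumberField
open Pool.Agent.Q35.MM Pool.Agent.Q279.MC.Bas79

variable {K : Type} [Field K] [NumberField K]

/-- the last coordinates -/
def tl {n : ℕ} (y : Fin (n + 2) → K) : Fin n → K := fun i => y i.succ.succ

theorem ext2 {n : ℕ} {y w : Fin (n + 2) → K} (h : tl y = tl w) (h0 : y 0 = w 0)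
    (h1 : y (Fin.succ 0) = w (Fin.succ 0)) : y = w := by
  funext i
  refine Fin.cases h0 (fun j => ?_) i
  refine Fin.cases h1 (fun l => ?_) j
  exact congrFun h l

theorem sum2 {n : ℕ} (a y : Fin (n + 2) → K) : ∑ i, a i * y i ^ 2 =
    a 0 * y 0 ^ 2 + a (Fin.succ 0) * y (Fin.succ 0) ^ 2 + ∑ i, tl a i * tl y i ^ 2 := by
  rw [Fin.sum_univ_succ, Fin.sum_univ_succ, ← add_assoc]
  rfl

/-- the statement for `r` variables -/
def P (K : Type) [Field K] [NumberField K] (r : ℕ) : Prop :=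
  ∀ a : Fin r → K, (∀ i, a i ≠ 0) →
    ∀ δ : ℝ, 0 < δ → ∃ C : ℝ, 0 ≤ C ∧ ∀ B : ℕ, 1 ≤ B → ∀ γ : K, γ ≠ 0 →
      ∀ Z : Finset (Fin r → K), (∀ y ∈ Z, y ∈ bx K r B ∧ ∑ i, a i * y i ^ 2 = γ) →
      (Z.card : ℝ) ≤ C * (B : ℝ) ^ ((dg K : ℝ) * ((r : ℝ) - 2) + δ)

theorem two (hBQ : S_BQ) : P K 2 := by
  intro a ha δ hδ
  classical
  obtain ⟨C, hC, h⟩ := hBQ K (a 0) (a 1) (ha 0) (ha 1) δ hδ
  refine ⟨C, hC, fun B hB γ hγ Z hZ => ?_⟩
  have h1 := h B hB γ hγ (Z.image fun y => (y 0, y 1)) (by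
    intro p hp
    rw [Finset.mem_image] at hp
    obtain ⟨y, hy, rfl⟩ := hp
    obtain ⟨h2, h3⟩ := hZ y hy
    rw [mem_bx] at h2
    refine ⟨h2 0, h2 1, ?_⟩
    rw [← h3, Fin.sum_univ_two])
  rw [Finset.card_image_of_injective _ (fun y w hyw => by
    funext i
    fin_cases i
    · exact congrArg Prod.fst hyw
    · exact congrArg Prod.snd hyw)] at h1
  refine h1.trans (le_of_eq ?_)
  congr 2
  push_cast
  ring

/-- the few tails on which the binary form vanishes -/
theorem few {n : ℕ} (hn : 1 ≤ n) (hP : 2 ≤ n → P K n) (a : Fin n → K) (ha : ∀ i, a i ≠ 0) (δ : ℝ)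
    (hδ : 0 < δ) : ∃ C : ℝ, 0 ≤ C ∧ ∀ B : ℕ, 1 ≤ B → ∀ γ : K, γ ≠ 0 →
      ∀ Z : Finset (Fin n → K), (∀ y ∈ Z, y ∈ bx K n B ∧ ∑ i, a i * y i ^ 2 = γ) →
      (Z.card : ℝ) ≤ C * (B : ℝ) ^ ((dg K : ℝ) * ((n : ℝ) - 1) + δ) := by
  classical
  rcases Nat.lt_or_ge n 2 with h2 | h2
  · obtain rfl : n = 1 := by omega
    refine ⟨2, by norm_num, fun B hB γ hγ Z hZ => ?_⟩
    have hB1 : (1 : ℝ) ≤ B := by exact_mod_cast hB
    have h1 : (Z.image fun y => y 0).card ≤ 2 := by
      refine sq_card (γ / a 0) _ fun u hu => ?_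
      rw [Finset.mem_image] at hu
      obtain ⟨y, hy, rfl⟩ := hu
      have h3 := (hZ y hy).2
      rw [Fin.sum_univ_one] at h3
      rw [← h3]
      field_simp [ha 0]
    rw [Finset.card_image_of_injective _ (fun y w hyw => by
      funext i
      obtain rfl : i = 0 := Subsingleton.elim _ _
      exact hyw)] at h1
    have h4 : (1 : ℝ) ≤ (B : ℝ) ^ ((dg K : ℝ) * (((1 : ℕ) : ℝ) - 1) + δ) := by
      apply Real.one_le_rpow hB1
      push_cast
      linarith
    have h5 : (Z.card : ℝ) ≤ 2 := by exact_mod_cast h1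
    linarith
  · obtain ⟨C, hC, h⟩ := hP h2 a ha δ hδ
    refine ⟨C, hC, fun B hB γ hγ Z hZ => (h B hB γ hγ Z hZ).trans ?_⟩
    have hB1 : (1 : ℝ) ≤ B := by exact_mod_cast hB
    apply mul_le_mul_of_nonneg_left _ hC
    apply Real.rpow_le_rpow_of_exponent_le hB1
    have : (0 : ℝ) ≤ dg K := Nat.cast_nonneg _
    nlinarith

theorem step (hBQ : S_BQ) {n : ℕ} (hn : 1 ≤ n) (hP : 2 ≤ n → P K n) : P K (n + 2) := by
  intro a ha δ hδ
  classical
  obtain ⟨C1, hC1, h1⟩ := bx_card (K := K) n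
  obtain ⟨C2, hC2, h2⟩ := hBQ K (a 0) (a (Fin.succ 0)) (ha _) (ha _) δ hδ
  obtain ⟨C3, hC3, h3⟩ := few hn hP (tl a) (fun i => ha _) δ hδ
  obtain ⟨C4, hC4, h4⟩ := card_le (K := K)
  refine ⟨C1 * C2 + C3 * (2 * C4), by positivity, fun B hB γ hγ Z hZ => ?_⟩
  have hB1 : (1 : ℝ) ≤ B := by exact_mod_cast hB
  have hB0 : (0 : ℝ) < B := by linarith
  have hbox : ∀ y ∈ Z, tl y ∈ bx K n B := by
    intro y hy
    have := (hZ y hy).1
    rw [mem_bx] at this ⊢
    exact fun i => this _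
  -- the two parts
  set Z1 := Z.filter fun y => ∑ i, tl a i * tl y i ^ 2 ≠ γ with hZ1
  set Z2 := Z.filter fun y => ¬ (∑ i, tl a i * tl y i ^ 2 ≠ γ) with hZ2
  have hsplit : Z.card = Z1.card + Z2.card := by
    rw [hZ1, hZ2]
    exact (Finset.card_filter_add_card_filter_not _).symm
  have hpart1 : (Z1.card : ℝ) ≤ C1 * C2 * (B : ℝ) ^ ((dg K : ℝ) * n + δ) := by
    have e1 : Z1.card = ∑ z ∈ Z1.image tl, (Z1.filter fun y => tl y = z).card :=
      Finset.card_eq_sum_card_image tl Z1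
    have e2 : ∀ z ∈ Z1.image tl, ((Z1.filter fun y => tl y = z).card : ℝ) ≤ C2 * (B : ℝ) ^ δ := by
      intro z hz
      rw [Finset.mem_image] at hz
      obtain ⟨y0, hy0, rfl⟩ := hz
      rw [hZ1, Finset.mem_filter] at hy0
      have g1 := h2 B hB (γ - ∑ i, tl a i * tl y0 i ^ 2) (sub_ne_zero.2 hy0.2.symm)
        ((Z1.filter fun y => tl y = tl y0).image fun y => (y 0, y (Fin.succ 0))) (by
          intro p hp
          rw [Finset.mem_image] at hp
          obtain ⟨y, hy, rfl⟩ := hp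
          rw [Finset.mem_filter, hZ1, Finset.mem_filter] at hy
          obtain ⟨⟨hy1, hy2⟩, hy3⟩ := hy
          obtain ⟨g2, g3⟩ := hZ y hy1
          rw [mem_bx] at g2
          refine ⟨g2 _, g2 _, ?_⟩
          rw [sum2, hy3] at g3
          rw [← g3]
          ring)
      rw [Finset.card_image_of_injOn (fun y hy w hw hyw => by
        rw [Finset.mem_coe, Finset.mem_filter] at hy hw
        exact ext2 (hy.2.trans hw.2.symm) (congrArg Prod.fst hyw) (congrArg Prod.snd hyw))] at g1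
      exact g1
    have e3 : ((Z1.image tl).card : ℝ) ≤ C1 * (B : ℝ) ^ (dg K * n) := by
      refine le_trans ?_ (h1 B hB)
      have : (Z1.image tl).card ≤ (bx K n B).card := by
        apply Finset.card_le_card
        intro z hz
        rw [Finset.mem_image] at hz
        obtain ⟨y, hy, rfl⟩ := hz
        rw [hZ1, Finset.mem_filter] at hy
        exact hbox y hy.1
      exact_mod_cast this
    calc (Z1.card : ℝ) = ∑ z ∈ Z1.image tl, ((Z1.filter fun y => tl y = z).card : ℝ) := by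
          rw [e1]; push_cast; rfl
      _ ≤ ∑ z ∈ Z1.image tl, C2 * (B : ℝ) ^ δ := Finset.sum_le_sum e2
      _ = (Z1.image tl).card * (C2 * (B : ℝ) ^ δ) := by rw [Finset.sum_const, nsmul_eq_mul]
      _ ≤ (C1 * (B : ℝ) ^ (dg K * n)) * (C2 * (B : ℝ) ^ δ) :=
          mul_le_mul_of_nonneg_right e3 (by positivity)
      _ = C1 * C2 * (B : ℝ) ^ ((dg K : ℝ) * n + δ) := by
          rw [Real.rpow_add hB0, ← Nat.cast_mul, Real.rpow_natCast]
          ring
  have hpart2 : (Z2.card : ℝ) ≤ C3 * (2 * C4) * (B : ℝ) ^ ((dg K : ℝ) * n + δ) := by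
    have e1 : Z2.card = ∑ z ∈ Z2.image tl, (Z2.filter fun y => tl y = z).card :=
      Finset.card_eq_sum_card_image tl Z2
    have e2 : ∀ z ∈ Z2.image tl, ((Z2.filter fun y => tl y = z).card : ℝ) ≤
        2 * C4 * (B : ℝ) ^ dg K := by
      intro z hz
      rw [Finset.mem_image] at hz
      obtain ⟨y0, hy0, rfl⟩ := hz
      rw [hZ2, Finset.mem_filter, not_not] at hy0
      have g1 : (Z2.filter fun y => tl y = tl y0).card ≤
          2 * ((Z2.filter fun y => tl y = tl y0).image fun y => y 0).card := by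
        refine Finset.card_le_mul_card_image _ 2 fun x hx => ?_
        have g2 : ((((Z2.filter fun y => tl y = tl y0).filter fun y => y 0 = x)).image
            fun y => y (Fin.succ 0)).card ≤ 2 := by
          refine sq_card (-(a 0 * x ^ 2) / a (Fin.succ 0)) _ fun u hu => ?_
          rw [Finset.mem_image] at hu
          obtain ⟨y, hy, rfl⟩ := hu
          rw [Finset.mem_filter, Finset.mem_filter, hZ2, Finset.mem_filter, not_not] at hy
          obtain ⟨⟨⟨hy1, hy2⟩, hy3⟩, hy4⟩ := hy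
          have g3 := (hZ y hy1).2
          rw [sum2, hy2, hy4] at g3
          rw [eq_div_iff (ha _)]
          linear_combination g3
        rwa [Finset.card_image_of_injOn (fun y hy w hw hyw => by
          rw [Finset.mem_coe, Finset.mem_filter, Finset.mem_filter] at hy hw
          exact ext2 (hy.1.2.trans hw.1.2.symm) (hy.2.trans hw.2.symm) hyw)] at g2
      have g4 : ((((Z2.filter fun y => tl y = tl y0).image fun y => y 0).card : ℕ) : ℝ) ≤
          C4 * (B : ℝ) ^ dg K := by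
        refine h4 B hB _ fun x hx => ?_
        rw [Finset.mem_image] at hx
        obtain ⟨y, hy, rfl⟩ := hx
        rw [Finset.mem_filter, hZ2, Finset.mem_filter] at hy
        exact mem_bx.1 (hZ y hy.1.1).1 0
      calc ((Z2.filter fun y => tl y = tl y0).card : ℝ) ≤
            2 * (((Z2.filter fun y => tl y = tl y0).image fun y => y 0).card : ℝ) := by
            exact_mod_cast g1
        _ ≤ 2 * (C4 * (B : ℝ) ^ dg K) := by linarith
        _ = _ := by ring
    have e3 : ((Z2.image tl).card : ℝ) ≤ C3 * (B : ℝ) ^ ((dg K : ℝ) * ((n : ℝ) - 1) + δ) := by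
      refine h3 B hB γ hγ _ fun z hz => ?_
      rw [Finset.mem_image] at hz
      obtain ⟨y, hy, rfl⟩ := hz
      rw [hZ2, Finset.mem_filter, not_not] at hy
      exact ⟨hbox y hy.1, hy.2⟩
    calc (Z2.card : ℝ) = ∑ z ∈ Z2.image tl, ((Z2.filter fun y => tl y = z).card : ℝ) := by
          rw [e1]; push_cast; rfl
      _ ≤ ∑ z ∈ Z2.image tl, 2 * C4 * (B : ℝ) ^ dg K := Finset.sum_le_sum e2
      _ = (Z2.image tl).card * (2 * C4 * (B : ℝ) ^ dg K) := by rw [Finset.sum_const, nsmul_eq_mul]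
      _ ≤ (C3 * (B : ℝ) ^ ((dg K : ℝ) * ((n : ℝ) - 1) + δ)) * (2 * C4 * (B : ℝ) ^ dg K) :=
          mul_le_mul_of_nonneg_right e3 (by positivity)
      _ = C3 * (2 * C4) * (B : ℝ) ^ ((dg K : ℝ) * n + δ) := by
          have e : (dg K : ℝ) * n + δ = ((dg K : ℝ) * ((n : ℝ) - 1) + δ) + dg K := by ring
          rw [e, Real.rpow_add hB0 ((dg K : ℝ) * ((n : ℝ) - 1) + δ) (dg K : ℝ),
            Real.rpow_natCast]
          ring
  have hexp : (dg K : ℝ) * (((n + 2 : ℕ) : ℝ) - 2) + δ = (dg K : ℝ) * n + δ := by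
    push_cast; ring
  rw [hexp, hsplit]
  push_cast
  linarith

theorem all (hBQ : S_BQ) : ∀ r : ℕ, 2 ≤ r → P K r := by
  intro r
  induction r using Nat.strong_induction_on with
  | _ r ih =>
    intro hr
    rcases Nat.lt_or_ge 2 r with h | h
    · obtain ⟨n, rfl⟩ : ∃ n, r = n + 2 := ⟨r - 2, by omega⟩
      exact step hBQ (by omega) fun hn => ih n (by omega) hn
    · obtain rfl : r = 2 := by omega
      exact two hBQ

theorem main : S_BQ → S_QR := by
  intro hBQ K _ _ r hr a ha δ hδ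
  exact all hBQ r hr a ha δ hδ

end Pool.Agent.Q279.MC.JQR
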