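import Pool.Agent.Q279.MC.Stm

/-!
# Project MC (helper279), job MC-SM: summation over the base
-/

set_option autoImplicit false

namespace Pool.Agent.Q279.MC.JSM

open Finset
open Pool.Agent.Q279.MC

/-- the dyadic level -/
noncomputable def lev (x : ℝ) : ℕ := Nat.log 2 ⌊x⌋₊

lemma lev_le {x : ℝ} (hx : 1 ≤ x) : (2 : ℝ) ^ lev x ≤ x := by
  have h1 : ⌊x⌋₊ ≠ 0 := (Nat.floor_pos.mpr hx).ne'
  have h2 : 2 ^ lev x ≤ ⌊x⌋₊ := Nat.pow_log_le_self 2 h1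
  have h3 : ((2 ^ lev x : ℕ) : ℝ) ≤ (⌊x⌋₊ : ℝ) := by exact_mod_cast h2
  push_cast at h3
  exact h3.trans (Nat.floor_le (by linarith))

lemma lt_lev (x : ℝ) : x ≤ (2 : ℝ) ^ (lev x + 1) := by
  have h2 : ⌊x⌋₊ < 2 ^ (lev x + 1) := Nat.lt_pow_succ_log_self (by norm_num) _
  have h3 : ((⌊x⌋₊ + 1 : ℕ) : ℝ) ≤ ((2 ^ (lev x + 1) : ℕ) : ℝ) := by exact_mod_cast h2
  push_cast at h3
  exact (Nat.lt_floor_add_one x).le.trans h3

lemma lev_mono {x y : ℝ} (h : x ≤ y) : lev x ≤ lev y :=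
  Nat.log_mono_right (Nat.floor_le_floor h)

lemma term {x γ : ℝ} (hx : 1 ≤ x) :
    x ^ (-γ) ≤ (2 : ℝ) ^ |γ| * ((2 : ℝ) ^ lev x) ^ (-γ) := by
  have hp : (0 : ℝ) < 2 ^ lev x := by positivity
  rcases le_or_gt 0 γ with hγ | hγ
  · have h1 : x ^ (-γ) ≤ ((2 : ℝ) ^ lev x) ^ (-γ) :=
      Real.rpow_le_rpow_of_nonpos hp (lev_le hx) (by linarith)
    have h2 : (1 : ℝ) ≤ (2 : ℝ) ^ |γ| := Real.one_le_rpow (by norm_num) (abs_nonneg _)
    have h3 : (0 : ℝ) ≤ ((2 : ℝ) ^ lev x) ^ (-γ) := Real.rpow_nonneg hp.le _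
    nlinarith
  · have h1 : x ^ (-γ) ≤ ((2 : ℝ) ^ (lev x + 1)) ^ (-γ) :=
      Real.rpow_le_rpow (by linarith) (lt_lev x) (by linarith)
    rw [pow_succ, Real.mul_rpow hp.le (by norm_num), mul_comm] at h1
    rwa [abs_of_neg hγ]

lemma growth {ε : ℝ} (hε : 0 < ε) : ∃ M : ℝ, 0 ≤ M ∧ ∀ Z : ℝ, 1 ≤ Z →
    ((lev Z : ℝ) + 1) ≤ M * Z ^ ε := by
  have hq : (1 : ℝ) < (2 : ℝ) ^ ε := Real.one_lt_rpow (by norm_num) hε
  obtain ⟨q, hqd⟩ : ∃ q, q = (2 : ℝ) ^ ε := ⟨_, rfl⟩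
  rw [← hqd] at hq
  refine ⟨max 1 (1 / (q - 1)), by positivity, fun Z hZ => ?_⟩
  obtain ⟨M, hM⟩ : ∃ M, M = max 1 (1 / (q - 1)) := ⟨_, rfl⟩
  rw [← hM]
  have hM1 : 1 ≤ M := by rw [hM]; exact le_max_left _ _
  have hM2 : 1 ≤ M * (q - 1) := by
    have h1 : 1 / (q - 1) ≤ M := by rw [hM]; exact le_max_right _ _
    rwa [div_le_iff₀ (by linarith)] at h1
  have h1 : 1 + (lev Z : ℝ) * (q - 1) ≤ (1 + (q - 1)) ^ lev Z :=
    one_add_mul_le_pow (by linarith) _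
  have h2 : (1 + (q - 1)) ^ lev Z ≤ Z ^ ε := by
    have e : (1 + (q - 1)) ^ lev Z = ((2 : ℝ) ^ lev Z) ^ ε := by
      rw [add_sub_cancel, hqd, ← Real.rpow_natCast, ← Real.rpow_natCast, ← Real.rpow_mul (by norm_num),
        ← Real.rpow_mul (by norm_num), mul_comm]
    rw [e]
    exact Real.rpow_le_rpow (by positivity) (lev_le hZ) hε.le
  have h3 : (lev Z : ℝ) + 1 ≤ M * (1 + (lev Z : ℝ) * (q - 1)) := by
    have h4 : (0 : ℝ) ≤ lev Z := Nat.cast_nonneg _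
    nlinarith
  exact h3.trans (mul_le_mul_of_nonneg_left (h1.trans h2) (by linarith))

/-- **SM** -/
theorem main : S_SM := by
  intro P h A h1 hA H γ ε hε
  classical
  obtain ⟨C₀, hC₀⟩ := H (ε / 2) (half_pos hε)
  obtain ⟨M, hM0, hM⟩ := growth (half_pos hε)
  obtain ⟨C, hCd⟩ : ∃ C, C = max C₀ 0 := ⟨_, rfl⟩
  have hC0 : 0 ≤ C := by rw [hCd]; exact le_max_right _ _
  have hC : ∀ T : ℝ, 1 ≤ T → ({p | h p ≤ T}).Finite ∧
      (({p | h p ≤ T}).ncard : ℝ) ≤ C * T ^ (A + ε / 2) := by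
    intro T hT
    obtain ⟨a, b⟩ := hC₀ T hT
    refine ⟨a, b.trans (mul_le_mul_of_nonneg_right ?_ (Real.rpow_nonneg (by linarith) _))⟩
    rw [hCd]
    exact le_max_left _ _
  refine ⟨C * 2 ^ (A + ε / 2) * 2 ^ |γ| * M, by positivity, fun Z hZ S hS => ?_⟩
  have hmap : ∀ p ∈ S, lev (h p) ∈ range (lev Z + 1) := fun p hp =>
    mem_range.mpr (Nat.lt_succ_of_le (lev_mono (hS p hp)))
  rw [← sum_fiberwise_of_maps_to hmap]
  obtain ⟨κ, hκ⟩ : ∃ κ, κ = max 0 (A - γ) + ε / 2 := ⟨_, rfl⟩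
  have hκ0 : 0 ≤ κ := by
    rw [hκ]
    have := le_max_left 0 (A - γ)
    linarith
  have key : ∀ j ∈ range (lev Z + 1), ∑ p ∈ S with lev (h p) = j, h p ^ (-γ) ≤
      C * 2 ^ (A + ε / 2) * 2 ^ |γ| * Z ^ κ := by
    intro j hj
    have hjp : (1 : ℝ) ≤ (2 : ℝ) ^ j := one_le_pow₀ (by norm_num)
    have hjp' : (1 : ℝ) ≤ (2 : ℝ) ^ (j + 1) := one_le_pow₀ (by norm_num)
    have hj0 : (0 : ℝ) < (2 : ℝ) ^ j := by positivity
    have hjZ : (2 : ℝ) ^ j ≤ Z :=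
      (pow_le_pow_right₀ (by norm_num) (Nat.lt_succ_iff.mp (mem_range.mp hj))).trans (lev_le hZ)
    obtain ⟨hf, hc⟩ := hC _ hjp'
    have hcard : ((S.filter fun p => lev (h p) = j).card : ℝ) ≤
        C * ((2 : ℝ) ^ (j + 1)) ^ (A + ε / 2) := by
      refine le_trans ?_ hc
      have hsub : ((S.filter fun p => lev (h p) = j : Finset P) : Set P) ⊆
          {p | h p ≤ (2 : ℝ) ^ (j + 1)} := fun p hp => by
        have hp' := (mem_filter.mp (mem_coe.mp hp)).2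
        show h p ≤ (2 : ℝ) ^ (j + 1)
        rw [← hp']
        exact lt_lev (h p)
      have hle := Set.ncard_le_ncard hsub hf
      rw [Set.ncard_coe_finset] at hle
      exact Nat.cast_le.mpr hle
    calc ∑ p ∈ S with lev (h p) = j, h p ^ (-γ)
        ≤ ∑ p ∈ S with lev (h p) = j, (2 : ℝ) ^ |γ| * ((2 : ℝ) ^ j) ^ (-γ) := by
          refine sum_le_sum fun p hp => ?_
          have hp' := (mem_filter.mp hp).2
          have := term (γ := γ) (h1 p)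
          rwa [hp'] at this
      _ = ((S.filter fun p => lev (h p) = j).card : ℝ) *
            ((2 : ℝ) ^ |γ| * ((2 : ℝ) ^ j) ^ (-γ)) := by rw [sum_const, nsmul_eq_mul]
      _ ≤ C * ((2 : ℝ) ^ (j + 1)) ^ (A + ε / 2) * ((2 : ℝ) ^ |γ| * ((2 : ℝ) ^ j) ^ (-γ)) :=
          mul_le_mul_of_nonneg_right hcard (by positivity)
      _ = C * 2 ^ (A + ε / 2) * 2 ^ |γ| * ((2 : ℝ) ^ j) ^ (A - γ + ε / 2) := by
          rw [pow_succ, Real.mul_rpow hj0.le (by norm_num)]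
          have e : ((2 : ℝ) ^ j) ^ (A - γ + ε / 2) =
              ((2 : ℝ) ^ j) ^ (A + ε / 2) * ((2 : ℝ) ^ j) ^ (-γ) := by
            rw [← Real.rpow_add hj0]
            congr 1
            ring
          rw [e]
          ring
      _ ≤ C * 2 ^ (A + ε / 2) * 2 ^ |γ| * Z ^ κ := by
          refine mul_le_mul_of_nonneg_left ?_ (by positivity)
          refine (Real.rpow_le_rpow_of_exponent_le hjp ?_).trans
            (Real.rpow_le_rpow hj0.le hjZ hκ0)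
          rw [hκ]
          have := le_max_right 0 (A - γ)
          linarith
  calc ∑ j ∈ range (lev Z + 1), ∑ p ∈ S with lev (h p) = j, h p ^ (-γ)
      ≤ ∑ _j ∈ range (lev Z + 1), C * 2 ^ (A + ε / 2) * 2 ^ |γ| * Z ^ κ := sum_le_sum key
    _ = ((lev Z : ℝ) + 1) * (C * 2 ^ (A + ε / 2) * 2 ^ |γ| * Z ^ κ) := by
        rw [sum_const, card_range, nsmul_eq_mul]
        push_cast
        rfl
    _ ≤ (M * Z ^ (ε / 2)) * (C * 2 ^ (A + ε / 2) * 2 ^ |γ| * Z ^ κ) :=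
        mul_le_mul_of_nonneg_right (hM Z hZ)
          (mul_nonneg (by positivity) (Real.rpow_nonneg (by linarith) _))
    _ = C * 2 ^ (A + ε / 2) * 2 ^ |γ| * M * Z ^ (max 0 (A - γ) + ε) := by
        have e : Z ^ (max 0 (A - γ) + ε) = Z ^ (ε / 2) * Z ^ κ := by
          rw [← Real.rpow_add (by linarith), hκ]
          congr 1
          ring
        rw [e]
        ring

end Pool.Agent.Q279.MC.JSM
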