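import Pool.Agent.Q279.MC.J.Bas79
import Pool.Agent.Q24.MM.MK

/-!
# Project MC, job TC: the scalars `t` for which all `t u_j ^ e` are in a box
-/

set_option autoImplicit false
set_option linter.unusedSectionVars false

namespace Pool.Agent.Q279.MC.JTC

open Finset NumberField IsDedekindDomain
open Pool.Agent.Q35.MM Pool.Agent.Q279.MC.Bas79

variable {K : Type} [Field K] [NumberField K]

theorem int_of_le {w : K} (hw : ∀ v : FinitePlace K, v w ≤ 1) : IsIntegral ℤ w := by
  have h := HeightOneSpectrum.mem_integers_of_valuation_le_one (R := 𝓞 K) K w (fun v => by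
    have h1 := hw (FinitePlace.mk v)
    rw [FinitePlace.mk_apply, NumberField.FinitePlace.norm_embedding'] at h1
    exact (WithZeroMulInt.toNNReal_le_one_iff
      (NumberField.HeightOneSpectrum.one_lt_absNorm_nnreal v)).1 (by exact_mod_cast h1))
  obtain ⟨a, ha⟩ := h
  rw [← ha]
  exact a.isIntegral_coe

/-- the elements of the ideal generated by the `y i` are at most the maximum at finite places -/
theorem span_le {N : ℕ} (hN : 0 < N) (y : Fin N → 𝓞 K) (v : FinitePlace K) {a : 𝓞 K}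
    (ha : a ∈ Ideal.span (Set.range y)) : v (a : K) ≤ ⨆ i, v (y i : K) := by
  have : Nonempty (Fin N) := ⟨⟨0, hN⟩⟩
  have hle : ∀ i, v (y i : K) ≤ ⨆ i, v (y i : K) := fun i =>
    le_ciSup (f := fun i => v (y i : K)) (Set.finite_range _).bddAbove i
  have h0 : 0 ≤ ⨆ i, v (y i : K) := (apply_nonneg v _).trans (hle ⟨0, hN⟩)
  induction ha using Submodule.span_induction with
  | mem x hx => obtain ⟨i, rfl⟩ := hx; exact hle i
  | zero =>
    have e : ((0 : 𝓞 K) : K) = 0 := rfl
    rw [e, map_zero]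
    exact h0
  | add x z _ _ hx hz =>
    have e : ((x + z : 𝓞 K) : K) = (x : K) + (z : K) := rfl
    rw [e]
    exact (FinitePlace.add_le v _ _).trans (max_le hx hz)
  | smul r x _ hx =>
    have e : ((r • x : 𝓞 K) : K) = (r : K) * (x : K) := rfl
    rw [e, map_mul]
    calc v (r : K) * v (x : K) ≤ 1 * v (x : K) :=
          mul_le_mul_of_nonneg_right (fin_le_one v r.isIntegral_coe) (apply_nonneg v _)
      _ ≤ _ := by rw [one_mul]; exact hx

/-- the normalised case: the conjugates of all coordinates have the same order of magnitude -/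
theorem norm_case (N e c : ℕ) (hc : 1 ≤ c) : ∃ C : ℝ, 0 ≤ C ∧ ∀ u : Fin N → K, u ≠ 0 →
    ∀ b : ℕ, 1 ≤ b → u ∈ bx K N (c * b) → ((b : ℝ) / 2) ^ dg K ≤ Height.mulHeight u →
    Height.mulHeight u ≤ (b : ℝ) ^ dg K → ∀ Y : ℕ, 1 ≤ Y → ∀ Z : Finset K,
      (∀ t ∈ Z, t ≠ 0 ∧ ∀ j, t * u j ^ e ∈ S1 K Y) →
      (Z.card : ℝ) * Height.mulHeight u ^ e ≤ C * (Y : ℝ) ^ dg K := by
  classical
  set d := dg K with hd
  obtain ⟨C4, hC4, h4⟩ := card_le (K := K)
  set m0 : ℕ := (2 * c) ^ d with hm0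
  set D : ℕ := m0.factorial with hD
  have hcR : (1 : ℝ) ≤ c := by exact_mod_cast hc
  have hm0R : (0 : ℝ) < m0 := by
    have : 0 < m0 := by rw [hm0]; positivity
    exact_mod_cast this
  have hD1 : (1 : ℝ) ≤ D := by exact_mod_cast Nat.factorial_pos m0
  set κ : ℝ := c / m0 with hκ
  have hκ0 : 0 < κ := by rw [hκ]; positivity
  refine ⟨C4 * (2 * (D : ℝ) ^ e / κ ^ e) ^ d, by positivity, ?_⟩
  intro u hu b hb hub hH1 hH2 Y hY Z hZ
  have hbR : (1 : ℝ) ≤ b := by exact_mod_cast hb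
  have hYR : (1 : ℝ) ≤ Y := by exact_mod_cast hY
  rcases Z.eq_empty_or_nonempty with hZ0 | hZne
  · rw [hZ0, Finset.card_empty, Nat.cast_zero, zero_mul]
    positivity
  have hN : 0 < N := by
    rcases Nat.eq_zero_or_pos N with h | h
    · subst h
      exact absurd (Subsingleton.elim u 0) hu
    · exact h
  have : Nonempty (Fin N) := ⟨⟨0, hN⟩⟩
  rw [mem_bx] at hub
  set y : Fin N → 𝓞 K := fun i => ⟨u i, (hub i).1⟩ with hy
  have hyu : ∀ i, (y i : K) = u i := fun i => rfl
  have hy0 : y ≠ 0 := by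
    intro h
    apply hu
    funext i
    have := congrFun h i
    rw [← hyu i, this]
    rfl
  have hprod := NumberField.mulHeight_eq hu
  have hNI := absNorm_mul_finprod_finitePlace_eq_one (K := K) hy0
  set n : ℕ := (Ideal.span (Set.range y)).absNorm with hn
  set P : ℝ := ∏ᶠ v : FinitePlace K, ⨆ i, v (y i : K) with hP
  have hP' : ∏ᶠ v : FinitePlace K, ⨆ i, v (u i) = P := rfl
  rw [hP'] at hprod
  set M : InfinitePlace K → ℝ := fun v => ⨆ i, v (u i) with hM
  have hprod' : Height.mulHeight u = (∏ v, M v ^ v.mult) * P := hprod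
  have hMle : ∀ (v : InfinitePlace K) i, v (u i) ≤ M v := fun v i =>
    le_ciSup (f := fun i => v (u i)) (Set.finite_range _).bddAbove i
  have hM0 : ∀ v, 0 ≤ M v := fun v => (apply_nonneg v _).trans (hMle v ⟨0, hN⟩)
  have hMu : ∀ v, M v ≤ c * b := by
    intro v
    refine ciSup_le fun i => ?_
    have := inf_le (hub i) v
    push_cast at this
    exact this
  have hn1 : 1 ≤ n := by
    rcases Nat.eq_zero_or_pos n with h | h
    · rw [h, Nat.cast_zero, zero_mul] at hNI
      exact absurd hNI zero_ne_one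
    · exact h
  have hnR : (1 : ℝ) ≤ n := by exact_mod_cast hn1
  have hPn : P = 1 / n := by
    rw [eq_div_iff (by positivity)]
    linarith [hNI, mul_comm (n : ℝ) P]
  have hP1 : P ≤ 1 := by
    rw [hPn]
    exact (div_le_one (by positivity)).2 hnR
  have hP0 : 0 < P := by rw [hPn]; positivity
  have hcb : (0 : ℝ) < c * b := by positivity
  -- the product of the archimedean maxima
  have hprodle : ∏ v, M v ^ v.mult ≤ (c * b : ℝ) ^ d := by
    calc ∏ v, M v ^ v.mult ≤ ∏ v : InfinitePlace K, (c * b : ℝ) ^ v.mult :=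
          Finset.prod_le_prod (fun v _ => pow_nonneg (hM0 v) _)
            fun v _ => pow_le_pow_left₀ (hM0 v) (hMu v) _
      _ = _ := by rw [Finset.prod_pow_eq_pow_sum, InfinitePlace.sum_mult_eq]
  have hprod0 : 0 ≤ ∏ v, M v ^ v.mult := Finset.prod_nonneg fun v _ => pow_nonneg (hM0 v) _
  -- the norm of the ideal is bounded
  have hb2 : ((b : ℝ) / 2) ^ d = (c * b : ℝ) ^ d / m0 := by
    rw [hm0]
    push_cast
    rw [← div_pow]
    congr 1
    field_simp
  have hnm : n ≤ m0 := by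
    have h1 : (c * b : ℝ) ^ d / m0 ≤ (c * b : ℝ) ^ d * P := by
      rw [← hb2]
      exact hH1.trans (by rw [hprod']; exact mul_le_mul_of_nonneg_right hprodle hP0.le)
    rw [hPn] at h1
    have h2 : (c * b : ℝ) ^ d * n ≤ (c * b : ℝ) ^ d * m0 := by
      rw [div_le_iff₀ hm0R] at h1
      have h3 := mul_le_mul_of_nonneg_right h1 (by positivity : (0 : ℝ) ≤ n)
      calc (c * b : ℝ) ^ d * n ≤ (c * b : ℝ) ^ d * (1 / n) * m0 * n := h3
        _ = (c * b : ℝ) ^ d * m0 := by field_simp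
    have h4 := le_of_mul_le_mul_left h2 (by positivity : (0 : ℝ) < (c * b : ℝ) ^ d)
    exact_mod_cast h4
  have hnD : n ∣ D := Nat.dvd_factorial hn1 hnm
  have hDmem : ((D : ℕ) : 𝓞 K) ∈ Ideal.span (Set.range y) := by
    obtain ⟨q, hq⟩ := hnD
    rw [hq, Nat.cast_mul]
    exact Ideal.mul_mem_right _ _ (Ideal.absNorm_mem _)
  -- the archimedean maxima from below
  have hMlow : ∀ v, κ * b ≤ M v := by
    intro v0
    have h1 : ∀ v, M v / (c * b) ≤ 1 := fun v => (div_le_one hcb).2 (hMu v)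
    have h0 : ∀ v, 0 ≤ M v / (c * b) := fun v => div_nonneg (hM0 v) hcb.le
    have h2 : (1 : ℝ) / m0 ≤ ∏ v, (M v / (c * b)) ^ v.mult := by
      simp only [div_pow]
      rw [Finset.prod_div_distrib, Finset.prod_pow_eq_pow_sum, InfinitePlace.sum_mult_eq]
      rw [le_div_iff₀ (by positivity)]
      calc 1 / (m0 : ℝ) * (c * b : ℝ) ^ d = ((b : ℝ) / 2) ^ d := by rw [hb2]; ring
        _ ≤ Height.mulHeight u := hH1
        _ = (∏ v, M v ^ v.mult) * P := hprod'
        _ ≤ (∏ v, M v ^ v.mult) * 1 := mul_le_mul_of_nonneg_left hP1 hprod0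
        _ = _ := mul_one _
    have h3 : ∏ v, (M v / (c * b)) ^ v.mult ≤ (M v0 / (c * b)) ^ v0.mult := by
      rw [← Finset.mul_prod_erase Finset.univ _ (Finset.mem_univ v0)]
      exact mul_le_of_le_one_right (pow_nonneg (h0 _) _)
        (Finset.prod_le_one (fun v _ => pow_nonneg (h0 v) _) fun v _ => pow_le_one₀ (h0 v) (h1 v))
    have h4 : (M v0 / (c * b)) ^ v0.mult ≤ M v0 / (c * b) :=
      pow_le_of_le_one (h0 _) (h1 _) (InfinitePlace.mult_pos.ne')
    have h5 := (h2.trans h3).trans h4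
    rw [div_le_div_iff₀ hm0R hcb, one_mul] at h5
    rw [hκ, div_mul_eq_mul_div, div_le_iff₀ hm0R]
    exact h5
  have hκb : 0 < κ * b := by positivity
  -- the image of `Z` under the multiplication by `D ^ e`
  have hDK : ((D : ℕ) : K) ≠ 0 := by
    have : D ≠ 0 := (Nat.factorial_pos m0).ne'
    exact_mod_cast this
  set X : ℝ := (D : ℝ) ^ e * Y / (κ * b) ^ e with hX
  have hint : ∀ t ∈ Z, IsIntegral ℤ ((D : K) ^ e * t) := by
    intro t ht
    obtain ⟨ht0, htj⟩ := hZ t ht
    refine int_of_le fun v => ?_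
    obtain ⟨j, hj⟩ := exists_eq_ciSup_of_finite (f := fun i => v (y i : K))
    have h1 : v ((D : ℕ) : K) ≤ v (y j : K) := by
      have := span_le hN y v hDmem
      rw [← hj] at this
      exact this
    rw [map_mul, map_pow]
    calc v ((D : ℕ) : K) ^ e * v t ≤ v (y j : K) ^ e * v t :=
          mul_le_mul_of_nonneg_right (pow_le_pow_left₀ (apply_nonneg v _) h1 _) (apply_nonneg v _)
      _ = v (t * u j ^ e) := by rw [map_mul, map_pow, hyu]; ring
      _ ≤ 1 := fin_le_one v (htj j).1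
  have harch : ∀ t ∈ Z, ∀ φ : K →+* ℂ, ‖φ ((D : K) ^ e * t)‖ ≤ X := by
    intro t ht φ
    obtain ⟨ht0, htj⟩ := hZ t ht
    set v := InfinitePlace.mk φ with hv
    obtain ⟨j, hj⟩ := exists_eq_ciSup_of_finite (f := fun i => v (u i))
    have h1 : v (u j) = M v := hj
    have h2 : v t * M v ^ e ≤ Y := by
      rw [← h1, ← map_pow, ← map_mul]
      exact inf_le (htj j) v
    have h3 : v t ≤ Y / (κ * b) ^ e := by
      rw [le_div_iff₀ (by positivity)]
      refine le_trans (mul_le_mul_of_nonneg_left ?_ (apply_nonneg v _)) h2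
      exact pow_le_pow_left₀ hκb.le (hMlow v) _
    have h4 : ‖φ t‖ = v t := rfl
    rw [map_mul, norm_mul, map_pow, norm_pow, map_natCast, h4, Complex.norm_natCast, hX,
      mul_div_assoc]
    exact mul_le_mul_of_nonneg_left h3 (by positivity)
  have hX1 : 1 ≤ X := by
    obtain ⟨t, ht⟩ := hZne
    by_contra hcon
    rw [not_le] at hcon
    set a : 𝓞 K := ⟨(D : K) ^ e * t, hint t ht⟩ with ha
    have ha0 : a ≠ 0 := by
      intro h
      have h1 : (a : K) = 0 := by rw [h]; rfl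
      exact mul_ne_zero (pow_ne_zero _ hDK) (hZ t ht).1 h1
    obtain ⟨φ⟩ : Nonempty (K →+* ℂ) := inferInstance
    have h1 : ∀ z : InfinitePlace K, z (a : K) < 1 := by
      intro z
      rw [← InfinitePlace.norm_embedding_eq]
      exact lt_of_le_of_lt (harch t ht _) hcon
    have h2 := InfinitePlace.one_le_of_lt_one (w := InfinitePlace.mk φ) ha0 fun z _ => h1 z
    exact absurd (h1 (InfinitePlace.mk φ)) (not_lt.2 h2)
  set Y' : ℕ := ⌈X⌉₊ with hY'
  have hY'1 : 1 ≤ Y' := Nat.one_le_ceil_iff.2 (by linarith)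
  have hY'2 : (Y' : ℝ) ≤ 2 * X := by
    have := Nat.ceil_lt_add_one (a := X) (by linarith)
    linarith
  have hcard := h4 Y' hY'1 (Z.image fun t => (D : K) ^ e * t) (by
    intro x hx
    rw [Finset.mem_image] at hx
    obtain ⟨t, ht, rfl⟩ := hx
    exact ⟨hint t ht, fun φ => (harch t ht φ).trans (Nat.le_ceil X)⟩)
  rw [Finset.card_image_of_injective _ (mul_right_injective₀ (pow_ne_zero _ hDK))] at hcard
  have hH0 : 0 ≤ Height.mulHeight u := zero_le_one.trans (Height.one_le_mulHeight u)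
  calc (Z.card : ℝ) * Height.mulHeight u ^ e ≤ (C4 * (Y' : ℝ) ^ d) * ((b : ℝ) ^ d) ^ e := by
        gcongr
    _ ≤ (C4 * (2 * X) ^ d) * ((b : ℝ) ^ d) ^ e := by gcongr
    _ = C4 * (2 * (D : ℝ) ^ e / κ ^ e) ^ d * (Y : ℝ) ^ d := by
        rw [hX]
        have hb0 : (b : ℝ) ≠ 0 := by positivity
        have hκ1 : κ ≠ 0 := hκ0.ne'
        rw [← pow_mul, mul_comm d e, pow_mul, mul_assoc C4, ← mul_pow, mul_assoc C4, ← mul_pow]
        congr 2
        rw [mul_pow]
        field_simp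

theorem main : S_TC := by
  intro K _ _ N e
  classical
  obtain ⟨c, hc, hMK⟩ := Pool.Agent.Q24.MM.mk K
  obtain ⟨C, hC, h⟩ := norm_case (K := K) N e c hc
  refine ⟨C, hC, fun u hu Y hY Z hZ => ?_⟩
  set d := dg K with hd
  have hd0 : 0 < d := dg_pos
  have hdR : (0 : ℝ) < d := by exact_mod_cast hd0
  set H := Height.mulHeight u with hH
  have hH1 : 1 ≤ H := Height.one_le_mulHeight u
  set x : ℝ := H ^ ((1 : ℝ) / d) with hx
  have hx1 : 1 ≤ x := Real.one_le_rpow hH1 (by positivity)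
  have hxd : x ^ d = H := by
    rw [hx, ← Real.rpow_natCast, ← Real.rpow_mul (by linarith), one_div,
      inv_mul_cancel₀ hdR.ne', Real.rpow_one]
  set b : ℕ := ⌈x⌉₊ with hb
  have hb1 : 1 ≤ b := Nat.one_le_ceil_iff.2 (by linarith)
  have hbx : x ≤ b := Nat.le_ceil x
  have hbx2 : (b : ℝ) / 2 ≤ x := by
    have := Nat.ceil_lt_add_one (a := x) (by linarith)
    linarith
  have hHb : H ≤ (b : ℝ) ^ d := by
    rw [← hxd]
    exact pow_le_pow_left₀ (by linarith) hbx _
  have hbH : ((b : ℝ) / 2) ^ d ≤ H := by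
    rw [← hxd]
    exact pow_le_pow_left₀ (by positivity) hbx2 _
  obtain ⟨l, hl0, hl⟩ := hMK N u hu b hb1 hHb
  have hHl : Height.mulHeight (l • u) = H := Height.mulHeight_smul_eq_mulHeight u hl0
  have h1 := h (l • u) (smul_ne_zero hl0 hu) b hb1 hl (by rw [hHl]; exact hbH)
    (by rw [hHl]; exact hHb) Y hY (Z.image fun t => (l ^ e)⁻¹ * t) (by
      intro s hs
      rw [Finset.mem_image] at hs
      obtain ⟨t, ht, rfl⟩ := hs
      obtain ⟨ht0, htj⟩ := hZ t ht
      refine ⟨mul_ne_zero (inv_ne_zero (pow_ne_zero _ hl0)) ht0, fun j => ?_⟩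
      have e1 : (l ^ e)⁻¹ * t * (l • u) j ^ e = t * u j ^ e := by
        rw [Pi.smul_apply, smul_eq_mul, mul_pow]
        field_simp
      rw [e1]
      exact htj j)
  rw [Finset.card_image_of_injective _
    (mul_right_injective₀ (inv_ne_zero (pow_ne_zero _ hl0))), hHl] at h1
  exact h1

end Pool.Agent.Q279.MC.JTC
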