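import Pool.Agent.Q279.MC.Stm
import Pool.Agent.H57R3.VJ.B
import Pool.Agent.Q144.MM.Db

/-!
# Project MC: common lemmas on the boxes `S1 K B` (jobs DV, BQ, QR, TC, FI)
-/

set_option autoImplicit false
set_option linter.unusedSectionVars false

namespace Pool.Agent.Q279.MC.Bas79

open Finset NumberField
open Pool.Agent.Q35.MM

variable {K : Type} [Field K] [NumberField K]

theorem dg_pos : 0 < dg K := Module.finrank_pos

theorem fin_le_one (v : FinitePlace K) {x : K} (hx : IsIntegral ℤ x) : v x ≤ 1 := by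
  rw [← FinitePlace.norm_embedding_eq]
  exact FinitePlace.norm_le_one K v.maximalIdeal (⟨x, hx⟩ : 𝓞 K)

theorem inf_le {B : ℕ} {x : K} (hx : x ∈ S1 K B) (v : InfinitePlace K) : v x ≤ B := by
  rw [← InfinitePlace.norm_embedding_eq]
  exact hx.2 _

theorem height_le {B : ℕ} (hB : 1 ≤ B) {x : K} (hx : x ∈ S1 K B) :
    Height.mulHeight₁ x ≤ (B : ℝ) ^ dg K := by
  have hB1 : (1 : ℝ) ≤ B := by exact_mod_cast hB
  have e : (B : ℝ) ^ dg K = ∏ v : InfinitePlace K, (B : ℝ) ^ v.mult := by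
    rw [Finset.prod_pow_eq_pow_sum, InfinitePlace.sum_mult_eq]
  rw [NumberField.mulHeight₁_eq, finprod_eq_one_of_forall_eq_one fun v =>
    max_eq_right (fin_le_one v hx.1), mul_one, e]
  exact Finset.prod_le_prod (fun v _ => pow_nonneg (le_trans zero_le_one (le_max_right _ _)) _)
    fun v _ => pow_le_pow_left₀ (le_trans zero_le_one (le_max_right _ _))
      (max_le (inf_le hx v) hB1) _

theorem S1_mul {A B : ℕ} {x y : K} (hx : x ∈ S1 K A) (hy : y ∈ S1 K B) : x * y ∈ S1 K (A * B) := by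
  refine ⟨hx.1.mul hy.1, fun φ => ?_⟩
  rw [map_mul, norm_mul, Nat.cast_mul]
  exact mul_le_mul (hx.2 φ) (hy.2 φ) (norm_nonneg _) (Nat.cast_nonneg _)

theorem S1_add {A B : ℕ} {x y : K} (hx : x ∈ S1 K A) (hy : y ∈ S1 K B) : x + y ∈ S1 K (A + B) := by
  refine ⟨hx.1.add hy.1, fun φ => ?_⟩
  rw [map_add, Nat.cast_add]
  exact (norm_add_le _ _).trans (add_le_add (hx.2 φ) (hy.2 φ))

theorem S1_neg {B : ℕ} {x : K} (hx : x ∈ S1 K B) : -x ∈ S1 K B := by
  refine ⟨hx.1.neg, fun φ => ?_⟩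
  rw [map_neg, norm_neg]
  exact hx.2 φ

theorem S1_sub {A B : ℕ} {x y : K} (hx : x ∈ S1 K A) (hy : y ∈ S1 K B) : x - y ∈ S1 K (A + B) := by
  rw [sub_eq_add_neg]
  exact S1_add hx (S1_neg hy)

theorem S1_mono {A B : ℕ} (h : A ≤ B) {x : K} (hx : x ∈ S1 K A) : x ∈ S1 K B :=
  ⟨hx.1, fun φ => (hx.2 φ).trans (by exact_mod_cast h)⟩

theorem S1_zero (B : ℕ) : (0 : K) ∈ S1 K B :=
  ⟨isIntegral_zero, fun φ => by rw [map_zero, norm_zero]; exact Nat.cast_nonneg _⟩

/-- every integral element is in some box -/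
theorem exists_S1 {x : K} (hx : IsIntegral ℤ x) : ∃ B : ℕ, 1 ≤ B ∧ x ∈ S1 K B := by
  classical
  obtain ⟨B, hB⟩ := exists_nat_ge (∑ φ : K →+* ℂ, ‖φ x‖)
  refine ⟨B + 1, by omega, hx, fun φ => ?_⟩
  have h1 : ‖φ x‖ ≤ ∑ φ : K →+* ℂ, ‖φ x‖ :=
    Finset.single_le_sum (f := fun φ : K →+* ℂ => ‖φ x‖) (fun _ _ => norm_nonneg _)
      (Finset.mem_univ φ)
  push_cast
  linarith

/-- the number of the elements of a box -/
theorem card_le : ∃ C : ℝ, 1 ≤ C ∧ ∀ B : ℕ, 1 ≤ B → ∀ Z : Finset K, (∀ x ∈ Z, x ∈ S1 K B) →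
    (Z.card : ℝ) ≤ C * (B : ℝ) ^ dg K := by
  classical
  set N : ℕ := (bx K 1 1).card
  have h := _root_.Q144.MM.db K 1 ⊤ 1 (by simp)
  refine ⟨3 ^ (dg K) * N + 1, by
    have : (0 : ℝ) ≤ 3 ^ dg K * N := by positivity
    linarith, fun B hB Z hZ => ?_⟩
  have h1 := h B 1 le_rfl hB
  have h2 : Z.card ≤ ((bx K 1 B).filter (· ∈ (⊤ : Submodule K (Fin 1 → K)))).card := by
    refine Finset.card_le_card_of_injOn (fun x => fun _ => x) ?_ ?_
    · intro x hx
      simp only [Finset.coe_filter, Submodule.mem_top, and_true, Set.mem_ofPred_eq, mem_bx]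
      exact fun _ => hZ x hx
    · intro x _ y _ hxy
      exact congrFun hxy 0
  have h3 : (((bx K 1 1).filter (· ∈ (⊤ : Submodule K (Fin 1 → K)))).card : ℝ) ≤ N := by
    exact_mod_cast Finset.card_filter_le _ _
  have hB0 : (0 : ℝ) ≤ B := Nat.cast_nonneg _
  calc (Z.card : ℝ) ≤ ((bx K 1 B).filter (· ∈ (⊤ : Submodule K (Fin 1 → K)))).card := by
        exact_mod_cast h2
    _ ≤ (3 * B / (1 : ℕ)) ^ (dg K * 1) *
        (((bx K 1 1).filter (· ∈ (⊤ : Submodule K (Fin 1 → K)))).card : ℝ) := h1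
    _ ≤ (3 * B) ^ dg K * N := by
        rw [Nat.cast_one, div_one, mul_one]
        exact mul_le_mul_of_nonneg_left h3 (by positivity)
    _ = 3 ^ dg K * N * (B : ℝ) ^ dg K := by rw [mul_pow]; ring
    _ ≤ _ := by
        have : (0 : ℝ) ≤ (B : ℝ) ^ dg K := by positivity
        nlinarith

/-- the number of the vectors in a box -/
theorem bx_card (m : ℕ) : ∃ C : ℝ, 1 ≤ C ∧ ∀ B : ℕ, 1 ≤ B →
    ((bx K m B).card : ℝ) ≤ C * (B : ℝ) ^ (dg K * m) := by
  classical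
  have h := _root_.Q144.MM.db K m ⊤ m (by simp)
  refine ⟨3 ^ (dg K * m) * (bx K m 1).card + 1, by
    have : (0 : ℝ) ≤ 3 ^ (dg K * m) * (bx K m 1).card := by positivity
    linarith, fun B hB => ?_⟩
  have h1 := h B 1 le_rfl hB
  have e1 : (bx K m B).filter (· ∈ (⊤ : Submodule K (Fin m → K))) = bx K m B :=
    Finset.filter_true_of_mem fun _ _ => Submodule.mem_top
  have e2 : (bx K m 1).filter (· ∈ (⊤ : Submodule K (Fin m → K))) = bx K m 1 :=
    Finset.filter_true_of_mem fun _ _ => Submodule.mem_top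
  rw [e1, e2, Nat.cast_one, div_one, mul_pow] at h1
  refine h1.trans ?_
  have : (0 : ℝ) ≤ (B : ℝ) ^ (dg K * m) := by positivity
  nlinarith

/-- there are at most two square roots -/
theorem sq_card {F : Type} [Field F] (c : F) (U : Finset F) (hU : ∀ u ∈ U, u ^ 2 = c) :
    U.card ≤ 2 := by
  classical
  have h1 : U ⊆ (Polynomial.nthRoots 2 c).toFinset := by
    intro u hu
    rw [Multiset.mem_toFinset, Polynomial.mem_nthRoots (by norm_num)]
    exact hU u hu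
  exact (Finset.card_le_card h1).trans ((Multiset.toFinset_card_le _).trans
    (Polynomial.card_nthRoots 2 c))

end Pool.Agent.Q279.MC.Bas79
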